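import Pool.Agent.Run7.h917.LW.Rank

/-! Lower bounds for the rank. -/

set_option autoImplicit false
set_option linter.unusedSectionVars false

open scoped InnerProductSpace ComplexConjugate Topology ENNReal Pointwise
open Filter

namespace Pool.Agent.Run7.h917.LW

universe u v w

open Classical in
/-- the squared distance from the basis vector to the kernel: the von Neumann rank -/
noncomputable def rk {G : Type u} [Group G] (α : G →₀ ℂ) : ℝ :=
  Metric.infDist (lp.single 2 (1 : G) (1 : ℂ)) (kernel α) ^ 2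

theorem rk_nonneg {G : Type u} [Group G] (α : G →₀ ℂ) : 0 ≤ rk α := sq_nonneg _

/-- **Small rank forces a large structured piece of the support.** -/
theorem rank_general (C : ℝ) (K B : ℕ) :
    ∃ N : ℕ, ∀ (G : Type u) [Group G] (α : G →₀ ℂ) (m : ℝ), 0 ≤ m →
      (∀ g ∈ α.support, m ≤ ‖α g‖) → N ≤ α.support.card →
      C * m ^ 2 ≤ rk α * ∑ g ∈ α.support, ‖α g‖ ^ 2 ∨
      ∃ X : Finset G, X.card = B ∧ ∃ y : G, ∀ w ∈ ((X : Set G)⁻¹ * (X : Set G)) ^ K,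
        IsOfFinOrder w ∧ ∀ x ∈ X, x * w * y ∈ α.support := by
  obtain ⟨N, hN⟩ := gfin.{u} (Real.sqrt C) K B
  refine ⟨max N 1, fun G _ α m hm hαm hcard => ?_⟩
  by_cases h : C * m ^ 2 ≤ rk α * ∑ g ∈ α.support, ‖α g‖ ^ 2
  · exact Or.inl h
  right
  push Not at h
  have hα : α ≠ 0 := by
    rintro rfl
    simp at hcard
  have hmpos : 0 < m := by
    rcases eq_or_lt_of_le hm with h1 | h1
    · exfalso
      rw [← h1] at h
      have h2 : 0 ≤ rk α * ∑ g ∈ α.support, ‖α g‖ ^ 2 :=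
        mul_nonneg (rk_nonneg α) (Finset.sum_nonneg fun _ _ => sq_nonneg _)
      simp only [ne_eq, OfNat.ofNat_ne_zero, not_false_eq_true, zero_pow, mul_zero] at h
      linarith
    · exact h1
  have h1 := isCoef_of_rank α m C hmpos h hα
  refine hN G _ h1 (fun g => ?_) α.support (fun g => ?_) ((le_max_left _ _).trans hcard)
  · by_cases hg : α g = 0
    · left; rw [hg, zero_div]
    · right
      rw [norm_div, Complex.norm_real, Real.norm_of_nonneg hmpos.le, one_le_div hmpos]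
      exact hαm g (Finsupp.mem_support_iff.2 hg)
  · rw [Finsupp.mem_support_iff, Ne, Ne, div_eq_zero_iff]
    have : (m : ℂ) ≠ 0 := by exact_mod_cast hmpos.ne'
    tauto

/-- Groups in which any more than `B` elements contain two with quotient of infinite order. -/
def Few (B : ℕ) (G : Type u) [Group G] : Prop :=
  ∀ X : Finset G, B < X.card → ∃ a ∈ X, ∃ b ∈ X, ¬ IsOfFinOrder (a⁻¹ * b)

theorem rank_few (C : ℝ) (B : ℕ) :
    ∃ N : ℕ, ∀ (G : Type u) [Group G], Few B G → ∀ (α : G →₀ ℂ) (m : ℝ), 0 ≤ m →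
      (∀ g ∈ α.support, m ≤ ‖α g‖) → N ≤ α.support.card →
      C * m ^ 2 ≤ rk α * ∑ g ∈ α.support, ‖α g‖ ^ 2 := by
  obtain ⟨N, hN⟩ := rank_general.{u} C 1 (B + 1)
  refine ⟨N, fun G _ hG α m hm hαm hcard => ?_⟩
  rcases hN G α m hm hαm hcard with h | ⟨X, hXc, y, hX⟩
  · exact h
  · exfalso
    obtain ⟨a, ha, b, hb, hab⟩ := hG X (by omega)
    refine hab (hX _ ?_).1
    rw [pow_one]
    exact ⟨a⁻¹, by simpa using ha, b, by simpa using hb, rfl⟩

theorem rank_trivial {G : Type u} [Group G] (α : G →₀ ℂ) (g : G) :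
    ‖α g‖ ^ 2 ≤ rk α * ∑ k ∈ α.support, ‖α k‖ ^ 2 := trivial_bound α g

/-- elements with all coefficients zero or of absolute value at least one -/
theorem rank_int (C : ℝ) (B : ℕ) :
    ∃ N : ℕ, ∀ (G : Type u) [Group G], Few B G → ∀ (α : G →₀ ℂ),
      (∀ g ∈ α.support, 1 ≤ ‖α g‖) → (N : ℝ) ≤ ∑ g ∈ α.support, ‖α g‖ ^ 2 →
      C ≤ rk α * ∑ g ∈ α.support, ‖α g‖ ^ 2 := by
  obtain ⟨N, hN⟩ := rank_few.{u} C B
  obtain ⟨N', hN'⟩ := exists_nat_ge (C * N)
  refine ⟨N' + 1, fun G _ hG α hα hcard => ?_⟩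
  by_cases h : N ≤ α.support.card
  · have := hN G hG α 1 zero_le_one hα h
    simpa using this
  push Not at h
  have hne : α.support.Nonempty := by
    rw [Finset.nonempty_iff_ne_empty]
    intro h0
    rw [h0, Finset.sum_empty] at hcard
    push_cast at hcard
    have : (0 : ℝ) ≤ N' := Nat.cast_nonneg _
    linarith
  obtain ⟨g, hg, hmax⟩ := Finset.exists_max_image α.support (fun g => ‖α g‖ ^ 2) hne
  have h1 := rank_trivial α g
  have h2 : ∑ k ∈ α.support, ‖α k‖ ^ 2 ≤ α.support.card * ‖α g‖ ^ 2 := by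
    have := Finset.sum_le_card_nsmul α.support (fun k => ‖α k‖ ^ 2) (‖α g‖ ^ 2) hmax
    simpa using this
  have h3 : (α.support.card : ℝ) ≤ N := by exact_mod_cast h.le
  have hNpos : (0 : ℝ) < N := by
    have : (0 : ℝ) ≤ α.support.card := Nat.cast_nonneg _
    have h4 : (0 : ℕ) < N := by omega
    exact_mod_cast h4
  have h4 : C * N ≤ N * ‖α g‖ ^ 2 := by
    push_cast at hcard
    have h5 : (α.support.card : ℝ) * ‖α g‖ ^ 2 ≤ N * ‖α g‖ ^ 2 :=
      mul_le_mul_of_nonneg_right h3 (sq_nonneg _)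
    linarith
  have h5 : C ≤ ‖α g‖ ^ 2 := by
    rw [mul_comm] at h4
    exact le_of_mul_le_mul_left h4 hNpos
  linarith

/-- coefficient functions of unitary representations -/
theorem isCoef_of_unitary {G : Type u} [Group G] {H : Type v} [NormedAddCommGroup H]
    [InnerProductSpace ℂ H] (π : G →* (H ≃ₗᵢ[ℂ] H)) (ξ η : H) (C : ℝ) (hC : 0 < C)
    (h : ‖ξ‖ * ‖η‖ ≤ C) : IsCoef C (fun g => ⟪η, π g ξ⟫_ℂ) := by
  rcases eq_or_ne ξ 0 with hξ | hξ
  · have := IsCoef.of_gram (G := G) C (fun _ : G × Bool => (0 : H)) (fun _ _ _ => rfl)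
      (fun _ => by simpa using hC.le)
    simpa [hξ] using this
  rcases eq_or_ne η 0 with hη | hη
  · have := IsCoef.of_gram (G := G) C (fun _ : G × Bool => (0 : H)) (fun _ _ _ => rfl)
      (fun _ => by simpa using hC.le)
    simpa [hη] using this
  have hξ0 : 0 < ‖ξ‖ := norm_pos_iff.2 hξ
  have hη0 : 0 < ‖η‖ := norm_pos_iff.2 hη
  set t : ℝ := Real.sqrt (‖η‖ / ‖ξ‖) with ht
  have htpos : 0 < t := by positivity
  have ht2 : t ^ 2 = ‖η‖ / ‖ξ‖ := Real.sq_sqrt (by positivity)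
  let w : Bool → H := fun b => if b then (((t)⁻¹ : ℝ) : ℂ) • η else ((t : ℝ) : ℂ) • ξ
  have hwt : w true = (((t)⁻¹ : ℝ) : ℂ) • η := rfl
  have hwf : w false = ((t : ℝ) : ℂ) • ξ := rfl
  have h2 := IsCoef.of_gram (G := G) C (fun x : G × Bool => π x.1 (w x.2))
    (fun g x y => by
      simp only [map_mul, LinearIsometryEquiv.coe_mul, Function.comp_apply]
      exact LinearIsometryEquiv.inner_map_map (π g) _ _)
    (fun x => by
      rw [LinearIsometryEquiv.norm_map]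
      rcases x.2 with _ | _
      · rw [hwf, norm_smul, Complex.norm_real, Real.norm_of_nonneg htpos.le, mul_pow, ht2]
        have : ‖η‖ / ‖ξ‖ * ‖ξ‖ ^ 2 = ‖ξ‖ * ‖η‖ := by field_simp
        rw [this]; exact h
      · rw [hwt, norm_smul, Complex.norm_real, Real.norm_of_nonneg (by positivity), mul_pow,
          inv_pow, ht2]
        have : (‖η‖ / ‖ξ‖)⁻¹ * ‖η‖ ^ 2 = ‖ξ‖ * ‖η‖ := by field_simp
        rw [this]; exact h)
  have h3 : (fun g : G => ⟪π (1 : G) (w true), π g (w false)⟫_ℂ) = fun g => ⟪η, π g ξ⟫_ℂ := by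
    funext g
    have e : (π g) (((t : ℝ) : ℂ) • ξ) = ((t : ℝ) : ℂ) • π g ξ := map_smul _ _ _
    rw [map_one, hwt, hwf, e, LinearIsometryEquiv.coe_one, id_eq, inner_smul_left,
      inner_smul_right, Complex.conj_ofReal]
    have : (t : ℂ) ≠ 0 := by exact_mod_cast htpos.ne'
    push_cast
    field_simp
  rw [← h3]
  exact h2

theorem unitary_general (C : ℝ) (K B : ℕ) :
    ∃ N : ℕ, ∀ (G : Type u) [Group G] (H : Type v) [NormedAddCommGroup H]
      [InnerProductSpace ℂ H] (π : G →* (H ≃ₗᵢ[ℂ] H)) (ξ η : H), ‖ξ‖ * ‖η‖ ≤ C →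
      ∀ S : Finset G, (∀ g, g ∈ S ↔ ⟪η, π g ξ⟫_ℂ ≠ 0) → (∀ g ∈ S, 1 ≤ ‖⟪η, π g ξ⟫_ℂ‖) →
      N ≤ S.card →
      ∃ X : Finset G, X.card = B ∧ ∃ y : G, ∀ w ∈ ((X : Set G)⁻¹ * (X : Set G)) ^ K,
        IsOfFinOrder w ∧ ∀ x ∈ X, x * w * y ∈ S := by
  obtain ⟨N, hN⟩ := gfin.{u} (max C 1) K B
  refine ⟨N, fun G _ H _ _ π ξ η h S hS hS1 hcard => ?_⟩
  refine hN G _ (isCoef_of_unitary π ξ η (max C 1) (lt_max_of_lt_right one_pos)
    (h.trans (le_max_left _ _))) (fun g => ?_) S hS hcard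
  by_cases hg : ⟪η, π g ξ⟫_ℂ = 0
  · exact Or.inl hg
  · exact Or.inr (hS1 g ((hS g).2 hg))

theorem unitary_few (C : ℝ) (B : ℕ) :
    ∃ N : ℕ, ∀ (G : Type u) [Group G], Few B G → ∀ (H : Type v) [NormedAddCommGroup H]
      [InnerProductSpace ℂ H] (π : G →* (H ≃ₗᵢ[ℂ] H)) (ξ η : H), ‖ξ‖ * ‖η‖ ≤ C →
      ∀ S : Finset G, (∀ g, g ∈ S ↔ ⟪η, π g ξ⟫_ℂ ≠ 0) → (∀ g ∈ S, 1 ≤ ‖⟪η, π g ξ⟫_ℂ‖) →
      S.card < N := by
  obtain ⟨N, hN⟩ := unitary_general.{u, v} C 1 (B + 1)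
  refine ⟨N, fun G _ hG H _ _ π ξ η h S hS hS1 => ?_⟩
  by_contra hcard
  obtain ⟨X, hXc, y, hX⟩ := hN G H π ξ η h S hS hS1 (not_lt.1 hcard)
  obtain ⟨a, ha, b, hb, hab⟩ := hG X (by omega)
  refine hab (hX _ ?_).1
  rw [pow_one]
  exact ⟨a⁻¹, by simpa using ha, b, by simpa using hb, rfl⟩

theorem few_of_torsionFree (G : Type u) [Group G] (h : ∀ g : G, IsOfFinOrder g → g = 1) :
    Few 1 G := by
  intro X hX
  obtain ⟨a, ha, b, hb, hab⟩ := Finset.one_lt_card.1 hX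
  exact ⟨a, ha, b, hb, fun hfin => hab (inv_mul_eq_one.1 (h _ hfin))⟩

open Classical in
theorem few_of_index (G : Type u) [Group G] (P : Subgroup G) (B : ℕ) (h0 : P.index ≠ 0)
    (hB : P.index ≤ B) (h : ∀ g ∈ P, IsOfFinOrder g → g = 1) : Few B G := by
  intro X hX
  have : P.FiniteIndex := ⟨h0⟩
  have : Finite (G ⧸ P) := inferInstance
  let _ : Fintype (G ⧸ P) := Fintype.ofFinite _
  have h6 : Fintype.card (G ⧸ P) = P.index := by
    rw [← Nat.card_eq_fintype_card]; rfl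
  have h7 : (Finset.univ : Finset (G ⧸ P)).card < X.card := by
    rw [Finset.card_univ]; omega
  obtain ⟨a, ha, b, hb, hab, hab2⟩ := Finset.exists_ne_map_eq_of_card_lt_of_maps_to h7
    (f := fun x : G => (QuotientGroup.mk x : G ⧸ P)) (fun x _ => Finset.mem_univ _)
  refine ⟨a, ha, b, hb, fun hfin => hab ?_⟩
  exact inv_mul_eq_one.1 (h _ (QuotientGroup.eq.1 hab2) hfin)

end Pool.Agent.Run7.h917.LW
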