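import Pool.Agent.Run7.h917.LW.Lim

/-! Coefficients of the powers of a positive contraction with finitely many values. -/

set_option autoImplicit false

open scoped InnerProductSpace ComplexConjugate Topology
open Filter

namespace Pool.Agent.Run7.h917.LW

universe u v

variable {H : Type u} [NormedAddCommGroup H] [InnerProductSpace ℂ H] [CompleteSpace H]

theorem cfc_pow_mul (a : H →L[ℂ] H) (h0 : 0 ≤ a) (k : ℕ) :
    cfc (fun x : ℝ => x ^ k * (1 - x)) a = a ^ k * (1 - a) := by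
  have hsa : IsSelfAdjoint a := IsSelfAdjoint.of_nonneg h0
  rw [cfc_mul (fun x : ℝ => x ^ k) (fun x : ℝ => 1 - x) a, cfc_pow_id a k,
    cfc_sub (fun _ : ℝ => (1 : ℝ)) (fun x : ℝ => x) a, cfc_const_one ℝ a, cfc_id' ℝ a]

theorem cfc_mul_pow (a : H →L[ℂ] H) (h0 : 0 ≤ a) (k : ℕ) :
    cfc (fun x : ℝ => x * (1 - x) ^ k) a = a * (1 - a) ^ k := by
  have hsa : IsSelfAdjoint a := IsSelfAdjoint.of_nonneg h0
  rw [cfc_mul (fun x : ℝ => x) (fun x : ℝ => (1 - x) ^ k) a, cfc_id' ℝ a,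
    cfc_pow (fun x : ℝ => 1 - x) k a,
    cfc_sub (fun _ : ℝ => (1 : ℝ)) (fun x : ℝ => x) a, cfc_const_one ℝ a, cfc_id' ℝ a]

theorem spec_mem (a : H →L[ℂ] H) (h0 : 0 ≤ a) (h1 : ‖a‖ ≤ 1) (x : ℝ) (hx : x ∈ spectrum ℝ a) :
    0 ≤ x ∧ x ≤ 1 := by
  refine ⟨spectrum_nonneg_of_nonneg h0 hx, ?_⟩
  have h2 : ‖x‖ ≤ ‖a‖ * ‖(1 : H →L[ℂ] H)‖ := spectrum.norm_le_norm_mul_of_mem hx
  have h3 : ‖(1 : H →L[ℂ] H)‖ ≤ 1 := ContinuousLinearMap.norm_id_le
  have h4 : ‖a‖ * ‖(1 : H →L[ℂ] H)‖ ≤ 1 * 1 :=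
    mul_le_mul h1 h3 (norm_nonneg _) zero_le_one
  have h5 : x ≤ ‖x‖ := le_abs_self x
  linarith

theorem norm_pow_mul_le (a : H →L[ℂ] H) (h0 : 0 ≤ a) (h1 : ‖a‖ ≤ 1) (k : ℕ) :
    ‖a ^ k * (1 - a)‖ ≤ 1 / (k + 1) := by
  rw [← cfc_pow_mul a h0 k]
  refine norm_cfc_le (by positivity) fun x hx => ?_
  obtain ⟨hx0, hx1⟩ := spec_mem a h0 h1 x hx
  rw [Real.norm_of_nonneg (mul_nonneg (pow_nonneg hx0 k) (sub_nonneg.2 hx1))]
  exact pow_mul_le x hx0 hx1 k

theorem norm_mul_pow_le (a : H →L[ℂ] H) (h0 : 0 ≤ a) (h1 : ‖a‖ ≤ 1) (k : ℕ) :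
    ‖a * (1 - a) ^ k‖ ≤ 1 / (k + 1) := by
  rw [← cfc_mul_pow a h0 k]
  refine norm_cfc_le (by positivity) fun x hx => ?_
  obtain ⟨hx0, hx1⟩ := spec_mem a h0 h1 x hx
  rw [Real.norm_of_nonneg (mul_nonneg hx0 (pow_nonneg (sub_nonneg.2 hx1) k))]
  have := pow_mul_le (1 - x) (sub_nonneg.2 hx1) (by linarith) k
  rw [sub_sub_cancel] at this
  rw [mul_comm]
  exact this

theorem star_mul_nonneg (T : H →L[ℂ] H) : 0 ≤ star T * T := star_mul_self_nonneg T

theorem norm_star_mul_le (T : H →L[ℂ] H) (hT : ‖T‖ ≤ 1) : ‖star T * T‖ ≤ 1 := by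
  rw [CStarRing.norm_star_mul_self]
  nlinarith [norm_nonneg T]

/-- `T (1 - T* T) ^ m` is small -/
theorem norm_comp_pow_le (T : H →L[ℂ] H) (hT : ‖T‖ ≤ 1) (m : ℕ) :
    ‖T * (1 - star T * T) ^ m‖ ^ 2 ≤ 1 / (2 * m + 1) := by
  set a := star T * T with ha
  have hsa : star a = a := by rw [ha, star_mul, star_star]
  have h1 : ‖T * (1 - a) ^ m‖ ^ 2 = ‖a * (1 - a) ^ (2 * m)‖ := by
    rw [sq, ← CStarRing.norm_star_mul_self]
    congr 1
    rw [star_mul, star_pow, star_sub, star_one, hsa]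
    have hc : Commute (1 - a) a := (Commute.one_left a).sub_left (Commute.refl a)
    calc (1 - a) ^ m * star T * (T * (1 - a) ^ m) = (1 - a) ^ m * (a * (1 - a) ^ m) := by
          rw [ha]; simp only [mul_assoc]
      _ = a * (1 - a) ^ m * (1 - a) ^ m := by rw [← mul_assoc, (hc.pow_left m).eq]
      _ = a * (1 - a) ^ (2 * m) := by rw [mul_assoc, ← pow_add, two_mul]
  rw [h1]
  have h2 := norm_mul_pow_le a (star_mul_nonneg T) (norm_star_mul_le T hT) (2 * m)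
  refine h2.trans (le_of_eq ?_)
  push_cast
  rfl

/-- If each coefficient of `T (T* T) ^ k` between two vectors is zero or of absolute value at
least one, and the coefficient of `T` is not zero, then almost all these coefficients are not
zero. -/
theorem coef_ne (T : H →L[ℂ] H) (hT : ‖T‖ ≤ 1) (ξ η : H)
    (h : ∀ k : ℕ, ⟪η, (T * (star T * T) ^ k) ξ⟫_ℂ = 0 ∨ 1 ≤ ‖⟪η, (T * (star T * T) ^ k) ξ⟫_ℂ‖)
    (h0 : ⟪η, T ξ⟫_ℂ ≠ 0) :
    ∃ k₀ : ℕ, ∀ k, k₀ ≤ k → ⟪η, (T * (star T * T) ^ k) ξ⟫_ℂ ≠ 0 := by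
  set a := star T * T with ha
  have ha0 : 0 ≤ a := star_mul_nonneg T
  have ha1 : ‖a‖ ≤ 1 := norm_star_mul_le T hT
  let E : ℕ → ℕ → ℂ := fun m k => ⟪η, (T * (a ^ k * (1 - a) ^ m)) ξ⟫_ℂ
  have hE0 : ∀ k, E 0 k = ⟪η, (T * a ^ k) ξ⟫_ℂ := by
    intro k
    show ⟪η, (T * (a ^ k * (1 - a) ^ 0) : H →L[ℂ] H) ξ⟫_ℂ = _
    rw [pow_zero, mul_one]
  have hEr : ∀ m k, E (m + 1) k = E m k - E m (k + 1) := by
    intro m k
    show ⟪η, (T * (a ^ k * (1 - a) ^ (m + 1))) ξ⟫_ℂ =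
      ⟪η, (T * (a ^ k * (1 - a) ^ m)) ξ⟫_ℂ -
      ⟪η, (T * (a ^ (k + 1) * (1 - a) ^ m)) ξ⟫_ℂ
    rw [← inner_sub_right, ← sub_apply, ← mul_sub]
    congr 3
    rw [pow_succ a k, mul_assoc (a ^ k) a, ← mul_sub]
    congr 1
    rw [pow_succ' (1 - a) m, sub_mul, one_mul]
  have hEb : ∀ m k, ‖E m k‖ ≤ ‖η‖ * ‖ξ‖ * Real.sqrt (1 / (2 * m + 1)) := by
    intro m k
    have h1 : ‖E m k‖ ≤ ‖η‖ * (‖T * (a ^ k * (1 - a) ^ m)‖ * ‖ξ‖) := by
      refine (norm_inner_le_norm _ _).trans ?_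
      exact mul_le_mul_of_nonneg_left (ContinuousLinearMap.le_opNorm _ _) (norm_nonneg _)
    have hc : Commute (1 - a) a := (Commute.one_left a).sub_left (Commute.refl a)
    have h2 : T * (a ^ k * (1 - a) ^ m) = (T * (1 - a) ^ m) * a ^ k := by
      rw [mul_assoc T, ((hc.pow_left m).pow_right k).eq]
    have h3 : ‖T * (a ^ k * (1 - a) ^ m)‖ ≤ Real.sqrt (1 / (2 * m + 1)) := by
      rw [h2]
      refine (norm_mul_le _ _).trans ?_
      have h4 : ‖T * (1 - a) ^ m‖ ≤ Real.sqrt (1 / (2 * m + 1)) :=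
        Real.le_sqrt_of_sq_le (norm_comp_pow_le T hT m)
      have h5 : ‖a ^ k‖ ≤ 1 := by
        rcases Nat.eq_zero_or_pos k with hk | hk
        · rw [hk, pow_zero]; exact ContinuousLinearMap.norm_id_le
        · refine (norm_pow_le' a hk).trans ?_
          exact pow_le_one₀ (norm_nonneg _) ha1
      calc ‖T * (1 - a) ^ m‖ * ‖a ^ k‖ ≤ Real.sqrt (1 / (2 * m + 1)) * 1 :=
            mul_le_mul h4 h5 (norm_nonneg _) (Real.sqrt_nonneg _)
        _ = _ := mul_one _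
    calc ‖E m k‖ ≤ _ := h1
      _ ≤ ‖η‖ * (Real.sqrt (1 / (2 * m + 1)) * ‖ξ‖) := by gcongr
      _ = _ := by ring
  have hE1b : ∀ k, ‖E 1 k‖ ≤ ‖η‖ * ‖ξ‖ * (1 / (k + 1)) := by
    intro k
    show ‖⟪η, (T * (a ^ k * (1 - a) ^ 1) : H →L[ℂ] H) ξ⟫_ℂ‖ ≤ _
    rw [pow_one]
    have h1 : ‖T * (a ^ k * (1 - a))‖ ≤ 1 / (k + 1) := by
      refine (norm_mul_le _ _).trans ?_
      have := norm_pow_mul_le a ha0 ha1 k
      calc ‖T‖ * ‖a ^ k * (1 - a)‖ ≤ 1 * (1 / (k + 1)) :=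
            mul_le_mul hT this (norm_nonneg _) zero_le_one
        _ = _ := one_mul _
    calc ‖⟪η, (T * (a ^ k * (1 - a))) ξ⟫_ℂ‖ ≤ ‖η‖ * (‖T * (a ^ k * (1 - a))‖ * ‖ξ‖) := by
          refine (norm_inner_le_norm _ _).trans ?_
          exact mul_le_mul_of_nonneg_left (ContinuousLinearMap.le_opNorm _ _) (norm_nonneg _)
      _ ≤ ‖η‖ * (1 / (k + 1) * ‖ξ‖) := by gcongr
      _ = _ := by ring
  obtain ⟨k₀, hk₀⟩ : ∃ k₀ : ℕ, ∀ k, k₀ ≤ k → ‖E 0 k - E 0 (k + 1)‖ < 1 := by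
    obtain ⟨k₀, hk₀⟩ := exists_nat_gt (‖η‖ * ‖ξ‖)
    refine ⟨k₀, fun k hk => ?_⟩
    rw [← hEr]
    refine (hE1b k).trans_lt ?_
    have hkk : (k₀ : ℝ) ≤ k := by exact_mod_cast hk
    rw [mul_one_div, div_lt_one (by positivity)]
    linarith
  refine ⟨k₀, fun k hk hzero => h0 ?_⟩
  -- all later coefficients vanish
  have hup : ∀ j, E 0 (k + j) = 0 := by
    intro j
    induction j with
    | zero => rw [add_zero, hE0]; exact hzero
    | succ j ih =>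
      have h1 := hk₀ (k + j) (by omega)
      rw [ih, zero_sub, norm_neg] at h1
      rcases h (k + (j + 1)) with h2 | h2
      · rw [hE0]; exact h2
      · exfalso
        rw [← hE0] at h2
        rw [← add_assoc] at h2
        linarith
  have hdown : ∀ j k', k ≤ k' + j → E 0 k' = 0 := by
    intro j
    induction j with
    | zero =>
      intro k' hk'
      have := hup (k' - k)
      rwa [show k + (k' - k) = k' by omega] at this
    | succ j ih =>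
      intro k' hk'
      have hz : ∀ m k'', k' + 1 ≤ k'' → E m k'' = 0 := by
        intro m
        induction m with
        | zero => intro k'' hk''; exact ih k'' (by omega)
        | succ m ihm =>
          intro k'' hk''
          rw [hEr, ihm k'' hk'', ihm (k'' + 1) (by omega), sub_zero]
      have hconst : ∀ m, E m k' = E 0 k' := by
        intro m
        induction m with
        | zero => rfl
        | succ m ihm => rw [hEr, hz m (k' + 1) le_rfl, sub_zero, ihm]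
      have hlim : Tendsto (fun m : ℕ => ‖η‖ * ‖ξ‖ * Real.sqrt (1 / (2 * m + 1))) atTop (𝓝 0) := by
        have h1 : Tendsto (fun m : ℕ => (1 : ℝ) / (2 * m + 1)) atTop (𝓝 0) := by
          have h2 : Tendsto (fun m : ℕ => (1 : ℝ) / (m + 1)) atTop (𝓝 0) :=
            tendsto_one_div_add_atTop_nhds_zero_nat
          refine squeeze_zero (fun m => by positivity) (fun m => ?_) h2
          apply one_div_le_one_div_of_le (by positivity)
          have : (0 : ℝ) ≤ m := Nat.cast_nonneg m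
          linarith
        have h3 : Tendsto (fun m : ℕ => Real.sqrt ((1 : ℝ) / (2 * m + 1))) atTop (𝓝 0) := by
          have := (Real.continuous_sqrt.tendsto 0).comp h1
          rw [Real.sqrt_zero] at this
          exact this
        simpa using h3.const_mul (‖η‖ * ‖ξ‖)
      have hle : ‖E 0 k'‖ ≤ 0 := by
        refine ge_of_tendsto hlim (Eventually.of_forall fun m => ?_)
        rw [← hconst m]
        exact hEb m k'
      exact norm_le_zero_iff.1 hle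
  have := hdown k 0 (by omega)
  rw [hE0, pow_zero, mul_one] at this
  exact this

end Pool.Agent.Run7.h917.LW
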