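import Pool.Agent.Run7.h917.LW.ZCase

/-! Finite supports on general groups. -/

set_option autoImplicit false
set_option linter.unusedSectionVars false

open scoped InnerProductSpace ComplexConjugate Topology Matrix ComplexOrder Pointwise
open Filter

namespace Pool.Agent.Run7.h917.LW

universe u v w

open Classical in
/-- an enumeration of a finite set -/
noncomputable def nth {α : Type u} (S : Finset α) (d : α) (n : ℕ) : α :=
  if h : n < S.card then (S.equivFin.symm ⟨n, h⟩ : α) else d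

theorem nth_mem {α : Type u} (S : Finset α) (d : α) (n : ℕ) (h : n < S.card) : nth S d n ∈ S := by
  rw [nth, dif_pos h]
  exact Finset.coe_mem _

theorem nth_ne {α : Type u} (S : Finset α) (d : α) (n m : ℕ) (hn : n < S.card) (hm : m < S.card)
    (hnm : n ≠ m) : nth S d n ≠ nth S d m := by
  rw [nth, dif_pos hn, nth, dif_pos hm]
  intro h
  have h1 := S.equivFin.symm.injective (Subtype.ext h)
  rw [Fin.mk.injEq] at h1
  exact hnm h1

open Classical in
/-- A coefficient function with many values which are not zero: the support contains a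
translate `X (X⁻¹ X) ^ K y` with a set `X` of `B` elements. -/
theorem gcase (M : ℝ) (K B : ℕ) :
    ∃ N : ℕ, ∀ (G : Type u) [Group G] (f : G → ℂ), IsCoef M f → (∀ g, f g ∈ Gap) →
      ∀ S : Finset G, (∀ g ∈ S, f g ≠ 0) → N ≤ S.card →
      ∃ X : Finset G, X.card = B ∧ ∃ y : G, ∀ x ∈ X, ∀ w ∈ ((X : Set G)⁻¹ * (X : Set G)) ^ K,
        f (x * w * y) ≠ 0 := by
  by_contra hcon
  push Not at hcon
  choose G iG f hf hfD S hS hcard hno using hcon
  set U : Ultrafilter ℕ := hyperfilter ℕ with hU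
  obtain ⟨F, hFc, hFD, hF⟩ := exists_limit_coef U hf hfD
  obtain ⟨H, i1, i2, i3, ρ, ξ, η, hρ, hρF⟩ := exists_rep hFc
  let s : ℕ → ∀ j, G j := fun n j => nth (S j) 1 n
  have hlt : ∀ n, ∀ᶠ j in (U : Filter ℕ), n < (S j).card := fun n =>
    (eventually_ge (n + 1)).mono fun j hj => lt_of_lt_of_le hj (hcard j)
  have hne : ∀ n, F (s n) ≠ 0 := by
    intro n
    rw [hF]
    filter_upwards [hlt n] with j hj
    exact hS j _ (nth_mem (S j) 1 n hj)
  obtain ⟨I, hI, hI2⟩ := hlw hρ ξ η (fun g => by rw [hρF]; exact hFD g) U s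
    (Eventually.of_forall fun n => by rw [hρF]; exact hne n)
  have hIinf : I.Infinite := fun hfin => notMem_hyperfilter_of_finite hfin hI
  obtain ⟨A, hA, hAc⟩ := hIinf.exists_subset_card_eq B
  obtain ⟨h', hk⟩ := hI2 A hA K
  have h3 : ∀ q ∈ A ×ˢ Fintype.piFinset (fun _ : Fin K => A ×ˢ A), ∀ᶠ j in (U : Filter ℕ),
      f j (s q.1 j * (List.ofFn fun i => (s (q.2 i).1 j)⁻¹ * s (q.2 i).2 j).prod * h' j) ≠ 0 := by
    intro q hq
    rw [Finset.mem_product] at hq
    have h4 := hk q.1 hq.1 q.2 hq.2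
    rw [hρF, hF] at h4
    filter_upwards [h4] with j hj
    have e : (List.ofFn fun i => (s (q.2 i).1)⁻¹ * s (q.2 i).2).prod j =
        (List.ofFn fun i => (s (q.2 i).1 j)⁻¹ * s (q.2 i).2 j).prod := by
      have h5 := map_list_prod (Pi.evalMonoidHom G j)
        (List.ofFn fun i => (s (q.2 i).1)⁻¹ * s (q.2 i).2)
      rw [List.map_ofFn] at h5
      exact h5
    rw [Pi.mul_apply, Pi.mul_apply, e] at hj
    exact hj
  have h4 : ∀ n ∈ A, ∀ᶠ j in (U : Filter ℕ), n < (S j).card := fun n _ => hlt n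
  obtain ⟨j, hj1, hj2⟩ := (((Filter.eventually_all_finset _).2 h3).and
    ((Filter.eventually_all_finset A).2 h4)).exists
  have hinj : Set.InjOn (fun n => s n j) A := by
    intro a ha b hb hab
    by_contra hne2
    exact nth_ne (S j) 1 a b (hj2 a ha) (hj2 b hb) hne2 hab
  have hXc : (A.image fun n => s n j).card = B := by
    rw [Finset.card_image_of_injOn hinj, hAc]
  obtain ⟨x, hx, w, hw, hzero⟩ := hno j (A.image fun n => s n j) hXc (h' j)
  obtain ⟨n, hn, rfl⟩ := Finset.mem_image.1 hx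
  obtain ⟨g, hg⟩ := Set.mem_pow.1 hw
  have h5 : ∀ i, ∃ q : ℕ × ℕ, q.1 ∈ A ∧ q.2 ∈ A ∧ (g i : G j) = (s q.1 j)⁻¹ * s q.2 j := by
    intro i
    obtain ⟨a, ha, b, hb, hab⟩ := Set.mem_mul.1 (g i).2
    rw [Set.mem_inv, Finset.mem_coe] at ha
    rw [Finset.mem_coe] at hb
    obtain ⟨p, hp, hp2⟩ := Finset.mem_image.1 ha
    obtain ⟨q, hq, hq2⟩ := Finset.mem_image.1 hb
    refine ⟨(p, q), hp, hq, ?_⟩
    rw [← hab]
    simp only at hp2 hq2 ⊢
    rw [hp2, hq2, inv_inv]
  choose v hv1 hv2 hv3 using h5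
  have h6 := hj1 (n, v) (Finset.mem_product.2 ⟨hn, Fintype.mem_piFinset.2 fun i =>
    Finset.mem_product.2 ⟨hv1 i, hv2 i⟩⟩)
  apply h6
  rw [← hzero, ← hg]
  simp only [hv3]

/-- **Supports of coefficient functions.** If all values of a coefficient function with large
finite support are zero or of absolute value at least one, then the support contains a
translate `X (X⁻¹ X) ^ K y` with a set `X` of `B` elements, and all elements of
`(X⁻¹ X) ^ K` are of finite order. -/
theorem gfin (M : ℝ) (K B : ℕ) :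
    ∃ N : ℕ, ∀ (G : Type u) [Group G] (f : G → ℂ), IsCoef M f → (∀ g, f g ∈ Gap) →
      ∀ S : Finset G, (∀ g, g ∈ S ↔ f g ≠ 0) → N ≤ S.card →
      ∃ X : Finset G, X.card = B ∧ ∃ y : G, ∀ w ∈ ((X : Set G)⁻¹ * (X : Set G)) ^ K,
        IsOfFinOrder w ∧ ∀ x ∈ X, x * w * y ∈ S := by
  obtain ⟨L, hL⟩ := zcase M
  obtain ⟨N, hN⟩ := gcase.{u} M (K * (L + 1)) (B + 1)
  refine ⟨N, fun G _ f hf hfD S hS hcard => ?_⟩
  obtain ⟨X', hX'c, y, hk'⟩ := hN G f hf hfD S (fun g hg => (hS g).1 hg) hcard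
  have hX'ne : X'.Nonempty := by rw [← Finset.card_pos]; omega
  obtain ⟨X, hXX', hXc⟩ := Finset.exists_subset_card_eq (show B ≤ X'.card by omega)
  have hXX'2 : ((X : Set G)⁻¹ * (X : Set G)) ⊆ ((X' : Set G)⁻¹ * (X' : Set G)) :=
    Set.mul_subset_mul (Set.inv_subset_inv.2 (Finset.coe_subset.2 hXX')) (Finset.coe_subset.2 hXX')
  set W : Set G := (X' : Set G)⁻¹ * (X' : Set G) with hW
  have h1W : (1 : G) ∈ W := by
    obtain ⟨x, hx⟩ := hX'ne
    exact ⟨x⁻¹, by simpa using hx, x, by simpa using hx, by simp⟩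
  have hWinv : W⁻¹ = W := by rw [hW, mul_inv_rev, inv_inv]
  have hmono : ∀ a b : ℕ, a ≤ b → W ^ a ⊆ W ^ b := fun a b hab =>
    Set.pow_subset_pow_right h1W hab
  refine ⟨X, hXc, y, fun w hw => ?_⟩
  have hwW : w ∈ W ^ K := Set.pow_subset_pow_left hXX'2 hw
  have hwinv : w⁻¹ ∈ W ^ K := by
    have : w⁻¹ ∈ (W ^ K)⁻¹ := Set.inv_mem_inv.2 hwW
    rwa [← inv_pow, hWinv] at this
  have hpow : ∀ k : ℕ, k ≤ L + 1 → w ^ k ∈ W ^ (K * (L + 1)) ∧ w⁻¹ ^ k ∈ W ^ (K * (L + 1)) := by
    intro k hk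
    have h2 := Set.pow_mem_pow hwW (n := k)
    have h3 := Set.pow_mem_pow hwinv (n := k)
    rw [← pow_mul] at h2 h3
    exact ⟨hmono _ _ (Nat.mul_le_mul_left K hk) h2, hmono _ _ (Nat.mul_le_mul_left K hk) h3⟩
  refine ⟨?_, fun x hx => ?_⟩
  · by_contra hord
    obtain ⟨x, hx⟩ := hX'ne
    have hinj : Function.Injective fun k : ℤ => x * w ^ k * y := by
      intro a b hab
      have h1 : w ^ a = w ^ b := mul_left_cancel (mul_right_cancel hab)
      exact injective_zpow_iff_not_isOfFinOrder.2 hord h1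
    let φ : Multiplicative ℤ →* G := zpowersHom G w
    have hφ : ∀ k : ℤ, φ (Multiplicative.ofAdd k) = w ^ k := fun k => rfl
    have hfin : {k : ℤ | f (x * w ^ k * y) ≠ 0}.Finite := by
      have : {k : ℤ | f (x * w ^ k * y) ≠ 0} = (fun k : ℤ => x * w ^ k * y) ⁻¹' (S : Set G) := by
        ext k
        simp only [Set.mem_ofPred_eq, Set.mem_preimage, Finset.mem_coe, hS]
      rw [this]
      exact S.finite_toSet.preimage hinj.injOn
    have h1 := hL (fun g => f (x * φ g * y)) (hf.pull φ x y) (fun g => hfD _) hfin.toFinset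
      (fun k => by simp [hφ])
    have h2 : Finset.Icc (-(L : ℤ)) L ⊆ hfin.toFinset := by
      intro k hk2
      rw [Set.Finite.mem_toFinset]
      rw [Finset.mem_Icc] at hk2
      refine hk' x hx _ ?_
      obtain ⟨k', rfl | rfl⟩ := k.eq_nat_or_neg
      · rw [zpow_natCast]
        exact (hpow k' (by omega)).1
      · rw [zpow_neg, zpow_natCast, ← inv_pow]
        exact (hpow k' (by omega)).2
    have h3 := Finset.card_le_card h2
    rw [Int.card_Icc] at h3
    omega
  · refine (hS _).2 (hk' x (hXX' hx) w ?_)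
    have := (hpow 1 (by omega)).1
    rwa [pow_one] at this

/-- the torsion-free case, and more generally the case of groups without large sets `X` such
that all quotients of `X` are of finite order -/
theorem tfcase (M : ℝ) (B : ℕ) :
    ∃ N : ℕ, ∀ (G : Type u) [Group G],
      (∀ X : Finset G, B < X.card → ∃ a ∈ X, ∃ b ∈ X, ¬ IsOfFinOrder (a⁻¹ * b)) →
      ∀ f : G → ℂ, IsCoef M f → (∀ g, f g ∈ Gap) →
      ∀ S : Finset G, (∀ g, g ∈ S ↔ f g ≠ 0) → S.card < N := by
  obtain ⟨N, hN⟩ := gfin.{u} M 1 (B + 1)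
  refine ⟨N, fun G _ hG f hf hfD S hS => ?_⟩
  by_contra hcard
  obtain ⟨X, hXc, y, hX⟩ := hN G f hf hfD S hS (not_lt.1 hcard)
  obtain ⟨a, ha, b, hb, hab⟩ := hG X (by omega)
  refine hab (hX _ ?_).1
  rw [pow_one]
  exact ⟨a⁻¹, by simpa using ha, b, by simpa using hb, rfl⟩

end Pool.Agent.Run7.h917.LW
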