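import Pool.Agent.Run7.h917.LW.Core

/-! The main lemma: an infinite sequence in a level set of a coefficient function with finitely
many values yields long translated progressions in the level set. -/

set_option autoImplicit false
set_option linter.unusedSectionVars false

open scoped InnerProductSpace ComplexConjugate Topology
open Filter

namespace Pool.Agent.Run7.h917.LW

universe u v

section
variable {H : Type u} [NormedAddCommGroup H] [InnerProductSpace ℂ H] [CompleteSpace H]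
variable {Γ : Type v} [Group Γ] (ρ : Γ → H →L[ℂ] H)

omit [CompleteSpace H] in
theorem mapp (A B : H →L[ℂ] H) (x : H) : (A * B) x = A (B x) := rfl

/-- `R` is in the weak closure of the operators `ρ g`, `g ∈ E` -/
def Appr (E : Set Γ) (R : H →L[ℂ] H) : Prop :=
  ∀ (F : Finset (H × H)) (ε : ℝ), 0 < ε →
    ∃ g ∈ E, ∀ p ∈ F, ‖⟪p.1, R p.2⟫_ℂ - ⟪p.1, ρ g p.2⟫_ℂ‖ < ε

variable {ρ}

/-- unitary representation, as a family of operators -/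
structure IsRep (ρ : Γ → H →L[ℂ] H) : Prop where
  mul : ∀ g h, ρ (g * h) = ρ g * ρ h
  one : ρ 1 = 1
  iso : ∀ g x y, ⟪ρ g x, ρ g y⟫_ℂ = ⟪x, y⟫_ℂ

omit [CompleteSpace H] in
theorem IsRep.norm (hρ : IsRep ρ) (g : Γ) (x : H) : ‖ρ g x‖ = ‖x‖ := by
  rw [@norm_eq_sqrt_re_inner ℂ, hρ.iso, ← @norm_eq_sqrt_re_inner ℂ]

omit [CompleteSpace H] in
theorem IsRep.inv_inner (hρ : IsRep ρ) (g : Γ) (x y : H) :
    ⟪ρ g⁻¹ y, x⟫_ℂ = ⟪y, ρ g x⟫_ℂ := by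
  rw [← hρ.iso g (ρ g⁻¹ y) x]
  congr 1
  rw [← mapp, ← hρ.mul, mul_inv_cancel, hρ.one]
  rfl

omit [CompleteSpace H] in
theorem appr_one (hρ : IsRep ρ) {E : Set Γ} (h1 : (1 : Γ) ∈ E) : Appr ρ E 1 := by
  intro F ε hε
  refine ⟨1, h1, fun p _ => ?_⟩
  rw [hρ.one, sub_self, norm_zero]
  exact hε

omit [CompleteSpace H] in
theorem appr_self (E : Set Γ) (g : Γ) (hg : g ∈ E) : Appr ρ E (ρ g) := by
  intro F ε hε
  refine ⟨g, hg, fun p _ => ?_⟩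
  rw [sub_self, norm_zero]
  exact hε

open Classical in
omit [CompleteSpace H] in
theorem appr_mul (hρ : IsRep ρ) {E : Set Γ} (hE : ∀ a ∈ E, ∀ b ∈ E, a * b ∈ E)
    {R R' : H →L[ℂ] H} (h : Appr ρ E R) (h' : Appr ρ E R') : Appr ρ E (R * R') := by
  intro F ε hε
  obtain ⟨g, hg, hg2⟩ := h (F.image fun p => (p.1, R' p.2)) (ε / 2) (by positivity)
  obtain ⟨k, hk, hk2⟩ := h' (F.image fun p => (ρ g⁻¹ p.1, p.2)) (ε / 2) (by positivity)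
  refine ⟨g * k, hE g hg k hk, fun p hp => ?_⟩
  have h1 := hg2 (p.1, R' p.2) (Finset.mem_image_of_mem _ hp)
  have h2 := hk2 (ρ g⁻¹ p.1, p.2) (Finset.mem_image_of_mem (fun p => (ρ g⁻¹ p.1, p.2)) hp)
  simp only at h1 h2
  rw [hρ.inv_inner, hρ.inv_inner] at h2
  have h3 : ⟪p.1, (R * R') p.2⟫_ℂ - ⟪p.1, ρ (g * k) p.2⟫_ℂ =
      (⟪p.1, R (R' p.2)⟫_ℂ - ⟪p.1, ρ g (R' p.2)⟫_ℂ) +
      (⟪p.1, ρ g (R' p.2)⟫_ℂ - ⟪p.1, ρ g (ρ k p.2)⟫_ℂ) := by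
    rw [hρ.mul]
    simp only [mapp]
    ring
  rw [h3]
  refine (norm_add_le _ _).trans_lt ?_
  linarith

omit [CompleteSpace H] in
theorem appr_pow (hρ : IsRep ρ) {E : Set Γ} (h1 : (1 : Γ) ∈ E)
    (hE : ∀ a ∈ E, ∀ b ∈ E, a * b ∈ E)
    {R : H →L[ℂ] H} (h : Appr ρ E R) (k : ℕ) : Appr ρ E (R ^ k) := by
  induction k with
  | zero => rw [pow_zero]; exact appr_one hρ h1
  | succ k ih => rw [pow_succ]; exact appr_mul hρ hE ih h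

omit [CompleteSpace H] in
theorem appr_mono {E E' : Set Γ} (hEE : E ⊆ E') {R : H →L[ℂ] H} (h : Appr ρ E R) :
    Appr ρ E' R := by
  intro F ε hε
  obtain ⟨g, hg, hg2⟩ := h F ε hε
  exact ⟨g, hEE hg, hg2⟩

omit [CompleteSpace H] in
theorem appr_limit {ι : Type*} (U : Ultrafilter ι) (s : ι → Γ) (T : H →L[ℂ] H)
    (hT : ∀ x y, Tendsto (fun i => ⟪y, ρ (s i) x⟫_ℂ) U (𝓝 ⟪y, T x⟫_ℂ)) :
    Appr ρ Set.univ T := by
  intro F ε hε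
  have h1 : ∀ p ∈ F, ∀ᶠ i in (U : Filter ι), ‖⟪p.1, T p.2⟫_ℂ - ⟪p.1, ρ (s i) p.2⟫_ℂ‖ < ε := by
    intro p _
    have := (Metric.tendsto_nhds.1 (hT p.2 p.1)) ε hε
    filter_upwards [this] with i hi
    rw [dist_comm, dist_eq_norm] at hi
    exact hi
  obtain ⟨i, hi⟩ := ((Filter.eventually_all_finset F).2 h1).exists
  exact ⟨s i, Set.mem_univ _, hi⟩

theorem appr_star_mul (hρ : IsRep ρ) {E : Set Γ} {ι : Type*} (U : Ultrafilter ι) (s : ι → Γ)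
    (T : H →L[ℂ] H) (hT : ∀ x y, Tendsto (fun i => ⟪y, ρ (s i) x⟫_ℂ) U (𝓝 ⟪y, T x⟫_ℂ))
    (hs : ∀ᶠ p in (U : Filter ι), ∀ᶠ q in (U : Filter ι), (s q)⁻¹ * s p ∈ E) :
    Appr ρ E (star T * T) := by
  intro F ε hε
  have h1 : ∀ z ∈ F, ∀ᶠ p in (U : Filter ι),
      ‖⟪T z.1, T z.2⟫_ℂ - ⟪T z.1, ρ (s p) z.2⟫_ℂ‖ < ε / 2 := by
    intro z _
    have := (Metric.tendsto_nhds.1 (hT z.2 (T z.1))) (ε / 2) (by positivity)
    filter_upwards [this] with i hi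
    rw [dist_comm, dist_eq_norm] at hi
    exact hi
  obtain ⟨p, hp1, hp2⟩ := (((Filter.eventually_all_finset F).2 h1).and hs).exists
  have h2 : ∀ z ∈ F, ∀ᶠ q in (U : Filter ι),
      ‖⟪T z.1, ρ (s p) z.2⟫_ℂ - ⟪z.1, ρ ((s q)⁻¹ * s p) z.2⟫_ℂ‖ < ε / 2 := by
    intro z _
    have := (Metric.tendsto_nhds.1 (hT z.1 (ρ (s p) z.2))) (ε / 2) (by positivity)
    filter_upwards [this] with q hq
    rw [dist_comm, dist_eq_norm] at hq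
    have e : ⟪T z.1, ρ (s p) z.2⟫_ℂ - ⟪z.1, ρ ((s q)⁻¹ * s p) z.2⟫_ℂ =
        (starRingEnd ℂ) (⟪ρ (s p) z.2, T z.1⟫_ℂ - ⟪ρ (s p) z.2, ρ (s q) z.1⟫_ℂ) := by
      rw [map_sub, inner_conj_symm, inner_conj_symm, hρ.mul, mapp,
        ← hρ.inv_inner (s q)⁻¹ (ρ (s p) z.2) z.1, inv_inv]
    rw [e, RCLike.norm_conj]
    exact hq
  obtain ⟨q, hq1, hq2⟩ := (((Filter.eventually_all_finset F).2 h2).and hp2).exists
  refine ⟨(s q)⁻¹ * s p, hq2, fun z hz => ?_⟩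
  have e : ⟪z.1, (star T * T) z.2⟫_ℂ = ⟪T z.1, T z.2⟫_ℂ := by
    rw [mapp, ContinuousLinearMap.star_eq_adjoint,
      ContinuousLinearMap.adjoint_inner_right]
  rw [e]
  have h3 := norm_sub_le_norm_sub_add_norm_sub (⟪T z.1, T z.2⟫_ℂ) (⟪T z.1, ρ (s p) z.2⟫_ℂ)
    (⟪z.1, ρ ((s q)⁻¹ * s p) z.2⟫_ℂ)
  have h4 := hp1 z hz
  have h5 := hq1 z hz
  linarith

omit [CompleteSpace H] in
theorem value_mem {E : Set Γ} {R : H →L[ℂ] H} (h : Appr ρ E R) (ξ η : H) (D : Set ℂ)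
    (hcl : IsClosed D) (hval : ∀ g, ⟪η, ρ g ξ⟫_ℂ ∈ D) : ⟪η, R ξ⟫_ℂ ∈ D := by
  rw [← hcl.closure_eq]
  rw [Metric.mem_closure_iff]
  intro ε hε
  obtain ⟨g, -, hg⟩ := h {(η, ξ)} ε hε
  refine ⟨_, hval g, ?_⟩
  rw [dist_eq_norm]
  exact hg (η, ξ) (by simp)

/-- zero and the numbers of absolute value at least one -/
def Gap : Set ℂ := {z | z = 0 ∨ 1 ≤ ‖z‖}

theorem isClosed_gap : IsClosed Gap := by
  have : Gap = {0} ∪ {z : ℂ | 1 ≤ ‖z‖} := by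
    ext z; simp [Gap]
  rw [this]
  exact isClosed_singleton.union (isClosed_le continuous_const continuous_norm)

theorem gap_ne {z w : ℂ} (hz : z ∈ Gap) (hz0 : z ≠ 0) (h : ‖z - w‖ < 1) : w ≠ 0 := by
  rintro rfl
  rw [sub_zero] at h
  rcases hz with h1 | h1
  · exact hz0 h1
  · linarith

open Classical in
/-- **Main lemma, the limit function.** -/
theorem hl0 (hρ : IsRep ρ) (ξ η : H)
    (hval : ∀ g, ⟪η, ρ g ξ⟫_ℂ ∈ Gap) (U : Ultrafilter ℕ) (s : ℕ → Γ)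
    (hc : ∀ᶠ n in (U : Filter ℕ), ⟪η, ρ (s n) ξ⟫_ℂ ≠ 0) (E : Set Γ) (h1 : (1 : Γ) ∈ E)
    (hE : ∀ a ∈ E, ∀ b ∈ E, a * b ∈ E)
    (hs : ∀ᶠ p in (U : Filter ℕ), ∀ᶠ q in (U : Filter ℕ), (s q)⁻¹ * s p ∈ E) :
    ∃ I ∈ U, ∃ P : Γ → Prop, (∀ n ∈ I, P (s n)) ∧
      (∀ n ∈ I, ∀ m ∈ I, ∀ g, P (g * ((s n)⁻¹ * s m)) ↔ P g) ∧
      ∀ F : Finset Γ, (∀ g ∈ F, P g) → ∃ h' ∈ E, ∀ g ∈ F, ⟪η, ρ (g * h') ξ⟫_ℂ ≠ 0 := by
  obtain ⟨T, hT1, hT2⟩ := exists_limit U (fun n => ρ (s n)) (fun n x => (hρ.norm (s n) x).le)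
  have hTn : ‖T‖ ≤ 1 := T.opNorm_le_bound zero_le_one (fun x => by simpa using hT1 x)
  set a := star T * T with ha
  have ha0 : 0 ≤ a := star_mul_nonneg T
  have ha1 : ‖a‖ ≤ 1 := norm_star_mul_le T hTn
  have hAT : Appr ρ Set.univ T := appr_limit U s T hT2
  have hAa : Appr ρ E a := appr_star_mul hρ U s T hT2 hs
  have huniv : ∀ a ∈ (Set.univ : Set Γ), ∀ b ∈ (Set.univ : Set Γ), a * b ∈ (Set.univ : Set Γ) :=
    fun _ _ _ _ => Set.mem_univ _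
  have hApow : ∀ j, Appr ρ E (a ^ j) := fun j => appr_pow hρ h1 hE hAa j
  have hTgap : ∀ j, ⟪η, (T * a ^ j) ξ⟫_ℂ ∈ Gap := fun j =>
    value_mem (appr_mul hρ huniv hAT (appr_mono (Set.subset_univ _) (hApow j))) ξ η Gap
      isClosed_gap hval
  have hTξ : ⟪η, T ξ⟫_ℂ ≠ 0 := by
    have h2 := (Metric.tendsto_nhds.1 (hT2 ξ η)) 1 one_pos
    obtain ⟨n, hn1, hn2⟩ := (h2.and hc).exists
    rw [dist_eq_norm] at hn1
    exact gap_ne (hval _) hn2 hn1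
  obtain ⟨k₀, hk₀⟩ := coef_ne T hTn ξ η hTgap hTξ
  -- choose the exponent
  set r := 1 / (2 * (‖η‖ + 1)) with hr
  have hrpos : 0 < r := by positivity
  obtain ⟨j₁, hj₁⟩ := exists_nat_gt (‖ξ‖ ^ 2 / r ^ 2)
  obtain ⟨j, hj, hjk⟩ : ∃ j : ℕ, ‖ξ‖ ^ 2 / r ^ 2 < j ∧ k₀ ≤ j :=
    ⟨max j₁ k₀, hj₁.trans_le (by exact_mod_cast le_max_left _ _), le_max_right _ _⟩
  set v := (a ^ j) ξ with hv
  have hdiff : ‖v‖ ^ 2 - ‖T v‖ ^ 2 < r ^ 2 := by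
    have hsa : ∀ x y, ⟪a x, y⟫_ℂ = ⟪x, a y⟫_ℂ := by
      intro x y
      have : star a = a := by rw [ha, star_mul, star_star]
      rw [← ContinuousLinearMap.adjoint_inner_left, ← ContinuousLinearMap.star_eq_adjoint, this]
    have hsp : ∀ k x y, ⟪(a ^ k) x, y⟫_ℂ = ⟪x, (a ^ k) y⟫_ℂ := by
      intro k
      induction k with
      | zero => intro x y; simp
      | succ k ih =>
        intro x y
        rw [pow_succ]
        show ⟪(a ^ k) (a x), y⟫_ℂ = ⟪x, (a ^ k) (a y)⟫_ℂ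
        rw [ih, hsa]
        have h9 : a ((a ^ k) y) = (a ^ k) (a y) :=
          DFunLike.congr_fun (Commute.self_pow a k).eq y
        rw [h9]
    have e1 : ((‖v‖ ^ 2 - ‖T v‖ ^ 2 : ℝ) : ℂ) = ⟪ξ, (a ^ (2 * j) * (1 - a)) ξ⟫_ℂ := by
      have e2 : ((‖v‖ : ℂ)) ^ 2 = ⟪v, v⟫_ℂ := (inner_self_eq_norm_sq_to_K v).symm
      have e3 : ((‖T v‖ : ℂ)) ^ 2 = ⟪T v, T v⟫_ℂ := (inner_self_eq_norm_sq_to_K (T v)).symm
      have e4 : ⟪T v, T v⟫_ℂ = ⟪v, a v⟫_ℂ := by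
        rw [ha, mapp, ContinuousLinearMap.star_eq_adjoint,
          ContinuousLinearMap.adjoint_inner_right]
      rw [Complex.ofReal_sub, Complex.ofReal_pow, Complex.ofReal_pow, e2, e3, e4,
        ← inner_sub_right]
      have e5 : v - a v = (1 - a) v := by simp
      rw [e5, hv, hsp, ← mapp, ← mapp]
      have hcm : Commute (1 - a) (a ^ j) :=
        ((Commute.one_left a).sub_left (Commute.refl a)).pow_right j
      rw [mul_assoc, hcm.eq, ← mul_assoc, ← pow_add, two_mul]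
    have e6 : ‖v‖ ^ 2 - ‖T v‖ ^ 2 ≤ ‖ξ‖ * (1 / ((2 * j : ℕ) + 1) * ‖ξ‖) := by
      calc ‖v‖ ^ 2 - ‖T v‖ ^ 2 ≤ |‖v‖ ^ 2 - ‖T v‖ ^ 2| := le_abs_self _
        _ = ‖((‖v‖ ^ 2 - ‖T v‖ ^ 2 : ℝ) : ℂ)‖ := by rw [Complex.norm_real, Real.norm_eq_abs]
        _ = ‖⟪ξ, (a ^ (2 * j) * (1 - a)) ξ⟫_ℂ‖ := by rw [e1]
        _ ≤ ‖ξ‖ * ‖(a ^ (2 * j) * (1 - a)) ξ‖ := norm_inner_le_norm _ _
        _ ≤ ‖ξ‖ * (‖a ^ (2 * j) * (1 - a)‖ * ‖ξ‖) := by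
            gcongr
            exact ContinuousLinearMap.le_opNorm _ _
        _ ≤ _ := by
            gcongr
            exact norm_pow_mul_le a ha0 ha1 (2 * j)
    refine e6.trans_lt ?_
    have e7 : ‖ξ‖ * (1 / (((2 * j : ℕ) : ℝ) + 1) * ‖ξ‖) = ‖ξ‖ ^ 2 / (((2 * j : ℕ) : ℝ) + 1) := by
      ring
    rw [e7, div_lt_iff₀ (by positivity)]
    rw [div_lt_iff₀ (by positivity)] at hj
    push_cast
    have : (0 : ℝ) ≤ j := Nat.cast_nonneg j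
    nlinarith [sq_nonneg r, mul_pos hrpos hrpos]
  -- strong convergence
  have hstrong : ∀ᶠ n in (U : Filter ℕ), ‖ρ (s n) v - T v‖ < r := by
    have h2 : Tendsto (fun n => ‖ρ (s n) v - T v‖ ^ 2) (U : Filter ℕ)
        (𝓝 (‖v‖ ^ 2 - ‖T v‖ ^ 2)) := by
      have h3 := (Complex.continuous_re.tendsto _).comp (hT2 v (T v))
      have h4 : Tendsto (fun n => ‖v‖ ^ 2 - 2 * (⟪T v, ρ (s n) v⟫_ℂ).re + ‖T v‖ ^ 2)
          (U : Filter ℕ) (𝓝 (‖v‖ ^ 2 - 2 * (⟪T v, T v⟫_ℂ).re + ‖T v‖ ^ 2)) := by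
        exact ((tendsto_const_nhds.sub (h3.const_mul 2)).add tendsto_const_nhds)
      have h5 : ‖v‖ ^ 2 - 2 * (⟪T v, T v⟫_ℂ).re + ‖T v‖ ^ 2 = ‖v‖ ^ 2 - ‖T v‖ ^ 2 := by
        have : (⟪T v, T v⟫_ℂ).re = ‖T v‖ ^ 2 := by
          rw [inner_self_eq_norm_sq_to_K]
          norm_cast
        rw [this]; ring
      rw [h5] at h4
      refine h4.congr fun n => ?_
      rw [@norm_sub_sq ℂ, hρ.norm]
      have : RCLike.re ⟪ρ (s n) v, T v⟫_ℂ = (⟪T v, ρ (s n) v⟫_ℂ).re := by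
        rw [inner_re_symm]; rfl
      rw [this]
    have h6 := h2.eventually_lt_const hdiff
    filter_upwards [h6] with n hn
    exact lt_of_pow_lt_pow_left₀ 2 hrpos.le hn
  -- the limit function
  have hψD : ∀ g, ⟪η, ρ g v⟫_ℂ ∈ Gap := by
    intro g
    have := value_mem (appr_mul hρ huniv (appr_self Set.univ g (Set.mem_univ _))
      (appr_mono (Set.subset_univ _) (hApow j))) ξ η Gap isClosed_gap hval
    rw [mapp] at this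
    exact this
  have hψc : ∀ᶠ n in (U : Filter ℕ), ⟪η, ρ (s n) v⟫_ℂ ≠ 0 := by
    have h3 : ⟪η, T v⟫_ℂ ≠ 0 := by
      have := hk₀ j hjk
      rw [mapp] at this
      exact this
    have h4 : ⟪η, T v⟫_ℂ ∈ Gap := by
      have := hTgap j
      rw [mapp] at this
      exact this
    have h5 := (Metric.tendsto_nhds.1 (hT2 v η)) 1 one_pos
    filter_upwards [h5] with n hn
    rw [dist_comm, dist_eq_norm] at hn
    exact gap_ne h4 h3 hn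
  refine ⟨{n | ‖ρ (s n) v - T v‖ < r ∧ ⟪η, ρ (s n) v⟫_ℂ ≠ 0}, hstrong.and hψc,
    fun g => ⟪η, ρ g v⟫_ℂ ≠ 0, fun n hn => hn.2, ?_, ?_⟩
  · rintro n ⟨hn1, hn2⟩ m ⟨hm1, hm2⟩ g
    have hclose : ∀ g, ‖⟪η, ρ (g * s n) v⟫_ℂ - ⟪η, ρ (g * s m) v⟫_ℂ‖ < 1 := by
      intro g
      rw [hρ.mul, hρ.mul, mapp, mapp,
        ← inner_sub_right, ← map_sub]
      refine (norm_inner_le_norm _ _).trans_lt ?_
      rw [hρ.norm]
      have h2 : ‖ρ (s n) v - ρ (s m) v‖ < 2 * r := by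
        have : ρ (s n) v - ρ (s m) v = (ρ (s n) v - T v) - (ρ (s m) v - T v) := by abel
        rw [this]
        refine (norm_sub_le _ _).trans_lt ?_
        linarith
      have h3 : 0 ≤ ‖η‖ := norm_nonneg _
      have h4 : ‖η‖ * ‖ρ (s n) v - ρ (s m) v‖ ≤ ‖η‖ * (2 * r) :=
        mul_le_mul_of_nonneg_left h2.le h3
      have h5 : (‖η‖ + 1) * (2 * r) = 1 := by
        rw [hr]; field_simp
      nlinarith
    have hinv : ∀ g, ⟪η, ρ (g * s n) v⟫_ℂ = 0 ↔ ⟪η, ρ (g * s m) v⟫_ℂ = 0 := by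
      intro g
      constructor
      · intro h2
        by_contra h3
        refine gap_ne (hψD _) h3 ?_ h2
        rw [norm_sub_rev]
        exact hclose g
      · intro h2
        by_contra h3
        exact gap_ne (hψD _) h3 (hclose g) h2
    have := hinv (g * (s n)⁻¹)
    rw [inv_mul_cancel_right] at this
    show ¬ _ ↔ ¬ _
    rw [this, mul_assoc]
  · intro F hF
    obtain ⟨h', hh', hh2⟩ := hApow j (F.image fun g => (ρ g⁻¹ η, ξ)) 1 one_pos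
    refine ⟨h', hh', fun g hg => ?_⟩
    have h2 := hh2 _ (Finset.mem_image_of_mem _ hg)
    simp only at h2
    rw [hρ.inv_inner, hρ.inv_inner, ← mapp (ρ g) (ρ h') ξ, ← hρ.mul] at h2
    exact gap_ne (hψD _) (hF g hg) h2

open Classical in
/-- **Main lemma, progressions.** -/
theorem hl (hρ : IsRep ρ) (ξ η : H)
    (hval : ∀ g, ⟪η, ρ g ξ⟫_ℂ ∈ Gap) (U : Ultrafilter ℕ) (s : ℕ → Γ)
    (hc : ∀ᶠ n in (U : Filter ℕ), ⟪η, ρ (s n) ξ⟫_ℂ ≠ 0) (E : Set Γ) (h1 : (1 : Γ) ∈ E)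
    (hE : ∀ a ∈ E, ∀ b ∈ E, a * b ∈ E)
    (hs : ∀ᶠ p in (U : Filter ℕ), ∀ᶠ q in (U : Filter ℕ), (s q)⁻¹ * s p ∈ E) :
    ∃ I ∈ U, ∀ n ∈ I, ∀ m ∈ I, ∀ K : ℕ, ∃ h' ∈ E, ∀ k : ℤ, |k| ≤ K →
      ⟪η, ρ (s n * ((s n)⁻¹ * s m) ^ k * h') ξ⟫_ℂ ≠ 0 := by
  obtain ⟨I, hI, P, hP1, hP2, hP3⟩ := hl0 hρ ξ η hval U s hc E h1 hE hs
  refine ⟨I, hI, fun n hn m hm K => ?_⟩
  set h := (s n)⁻¹ * s m with hh
  have hstepk : ∀ (k : ℕ) g, P (g * h ^ k) ↔ P g := by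
    intro k
    induction k with
    | zero => intro g; simp
    | succ k ih => intro g; rw [pow_succ, ← mul_assoc, hP2 n hn m hm, ih]
  have hstepz : ∀ (k : ℤ) g, P (g * h ^ k) ↔ P g := by
    intro k g
    obtain ⟨k', rfl | rfl⟩ := k.eq_nat_or_neg
    · rw [zpow_natCast]; exact hstepk k' g
    · have := hstepk k' (g * h ^ (-(k' : ℤ)))
      rw [← this, zpow_neg, zpow_natCast, inv_mul_cancel_right]
  obtain ⟨h', hh', h2⟩ := hP3 ((Finset.Icc (-(K : ℤ)) K).image fun k => s n * h ^ k) (by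
    intro g hg
    obtain ⟨k, -, rfl⟩ := Finset.mem_image.1 hg
    exact (hstepz k (s n)).2 (hP1 n hn))
  refine ⟨h', hh', fun k hk => h2 _ (Finset.mem_image_of_mem _ ?_)⟩
  rw [Finset.mem_Icc]; exact abs_le.1 hk

open Classical in
/-- **Main lemma, words.** -/
theorem hlw (hρ : IsRep ρ) (ξ η : H)
    (hval : ∀ g, ⟪η, ρ g ξ⟫_ℂ ∈ Gap) (U : Ultrafilter ℕ) (s : ℕ → Γ)
    (hc : ∀ᶠ n in (U : Filter ℕ), ⟪η, ρ (s n) ξ⟫_ℂ ≠ 0) :
    ∃ I ∈ U, ∀ (A : Finset ℕ), (A : Set ℕ) ⊆ I → ∀ K : ℕ, ∃ h' : Γ, ∀ n ∈ A,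
      ∀ v ∈ Fintype.piFinset (fun _ : Fin K => A ×ˢ A),
      ⟪η, ρ (s n * (List.ofFn fun i => (s (v i).1)⁻¹ * s (v i).2).prod * h') ξ⟫_ℂ ≠ 0 := by
  obtain ⟨I, hI, P, hP1, hP2, hP3⟩ := hl0 hρ ξ η hval U s hc Set.univ (Set.mem_univ _)
    (fun _ _ _ _ => Set.mem_univ _) (Eventually.of_forall fun p => Eventually.of_forall fun q =>
      Set.mem_univ _)
  refine ⟨I, hI, fun A hA K => ?_⟩
  have hword : ∀ (l : List Γ), (∀ w ∈ l, ∃ n ∈ I, ∃ m ∈ I, w = (s n)⁻¹ * s m) →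
      ∀ g, P (g * l.prod) ↔ P g := by
    intro l
    induction l with
    | nil => intro _ g; simp
    | cons w l ih =>
      intro hl g
      rw [List.prod_cons, ← mul_assoc, ih (fun w' hw' => hl w' (List.mem_cons_of_mem _ hw'))]
      obtain ⟨n, hn, m, hm, rfl⟩ := hl w List.mem_cons_self
      exact hP2 n hn m hm g
  obtain ⟨h', -, h2⟩ := hP3 ((A ×ˢ Fintype.piFinset (fun _ : Fin K => A ×ˢ A)).image
    fun q => s q.1 * (List.ofFn fun i => (s (q.2 i).1)⁻¹ * s (q.2 i).2).prod) (by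
    intro g hg
    obtain ⟨q, hq, rfl⟩ := Finset.mem_image.1 hg
    rw [Finset.mem_product] at hq
    refine (hword _ ?_ _).2 (hP1 _ (hA hq.1))
    intro w hw
    rw [List.mem_ofFn] at hw
    obtain ⟨i, rfl⟩ := hw
    have h3 := Finset.mem_product.1 (Fintype.mem_piFinset.1 hq.2 i)
    exact ⟨_, hA h3.1, _, hA h3.2, rfl⟩)
  refine ⟨h', fun n hn v hv => h2 _ ?_⟩
  exact Finset.mem_image.2 ⟨(n, v), Finset.mem_product.2 ⟨hn, hv⟩, rfl⟩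

end

end Pool.Agent.Run7.h917.LW
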