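import Pool.Agent.Run7.h917.LW.Kern
import Pool.Agent.Run7.h917.LW.HL

/-! The unitary representation of an invariant positive kernel. -/

set_option autoImplicit false
set_option linter.unusedSectionVars false

open scoped InnerProductSpace ComplexConjugate Topology Matrix ComplexOrder
open Filter RKHS

namespace Pool.Agent.Run7.h917.LW

universe u v w

theorem exists_hilbert {X : Type u} (K : Matrix X X ℂ) (hK : K.PosSemidef) :
    ∃ (H : Type u) (_ : NormedAddCommGroup H) (_ : InnerProductSpace ℂ H) (_ : CompleteSpace H)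
      (e : X → H), (∀ x y, ⟪e x, e y⟫_ℂ = K x y) ∧
      DenseRange (Finsupp.linearCombination ℂ e) := by
  let K' : Matrix X X (ℂ →L[ℂ] ℂ) := Matrix.of fun x y => K x y • ContinuousLinearMap.id ℂ ℂ
  have hK' : K'.PosSemidef := by
    have tf := (posSemidef_tfae (𝕜 := ℂ) (K := K')).out 0 2
    refine tf.2 ⟨?_, fun c => ?_⟩
    · ext x y
      simp only [K', Matrix.conjTranspose_apply, Matrix.of_apply, star_smul]
      have := hK.isHermitian.apply x y
      have hs : star (ContinuousLinearMap.id ℂ ℂ) = ContinuousLinearMap.id ℂ ℂ := star_one _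
      rw [this, hs]
    · have h1 := hK.2 c
      have h2 : (c.sum fun x w => c.sum fun x' w' => ⟪K' x' x w, w'⟫_ℂ) =
          c.sum fun i xi => c.sum fun j xj => star xi * K i j * xj := by
        refine Finsupp.sum_congr fun i _ => Finsupp.sum_congr fun j _ => ?_
        simp only [K', Matrix.of_apply, smul_apply, ContinuousLinearMap.id_apply, smul_eq_mul,
          RCLike.inner_apply, map_mul]
        have := hK.isHermitian.apply i j
        rw [← this]
        simp only [RCLike.star_def]
        ring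
      rw [h2]
      exact (Complex.le_def.1 h1).1
  have : Fact K'.PosSemidef := ⟨hK'⟩
  refine ⟨OfKernel K', inferInstance, inferInstance, inferInstance,
    fun x => kerFun (OfKernel K') x 1, fun x y => ?_, ?_⟩
  · have h1 := kernel_inner (OfKernel K') y x (1 : ℂ) (1 : ℂ)
    rw [OfKernel.kernel_ofKernel] at h1
    rw [← h1]
    simp only [K', Matrix.of_apply, smul_apply, ContinuousLinearMap.id_apply, smul_eq_mul,
      RCLike.inner_apply, map_mul]
    have := hK.isHermitian.apply x y
    rw [← this]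
    simp
  · have h1 := kerFun_dense (H := OfKernel K')
    have h2 : Submodule.span ℂ {kerFun (OfKernel K') x v | (x) (v)} ≤
        LinearMap.range (Finsupp.linearCombination ℂ fun x => kerFun (OfKernel K') x (1 : ℂ)) := by
      refine Submodule.span_le.2 ?_
      rintro _ ⟨x, v, rfl⟩
      refine ⟨Finsupp.single x v, ?_⟩
      rw [Finsupp.linearCombination_single, ← map_smul, smul_eq_mul, mul_one]
    have h3 : Dense (LinearMap.range
        (Finsupp.linearCombination ℂ fun x => kerFun (OfKernel K') x (1 : ℂ)) :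
          Set (OfKernel K')) := by
      rw [Submodule.dense_iff_topologicalClosure_eq_top]
      rw [eq_top_iff, ← h1]
      exact Submodule.topologicalClosure_mono h2
    exact h3

/-- A coefficient function in the sense of kernels comes from a unitary representation. -/
theorem exists_rep {M : ℝ} {G : Type u} [Group G] {f : G → ℂ} (hf : IsCoef M f) :
    ∃ (H : Type u) (_ : NormedAddCommGroup H) (_ : InnerProductSpace ℂ H) (_ : CompleteSpace H)
      (ρ : G → H →L[ℂ] H) (ξ η : H), IsRep ρ ∧ ∀ g, ⟪η, ρ g ξ⟫_ℂ = f g := by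
  obtain ⟨K, hK, hinv, hM, hKf⟩ := hf
  obtain ⟨H, i1, i2, i3, e, he, hd⟩ := exists_hilbert K hK
  let E : (G × Bool →₀ ℂ) →ₗ[ℂ] H := Finsupp.linearCombination ℂ e
  let Eg : G → (G × Bool →₀ ℂ) →ₗ[ℂ] H := fun g =>
    Finsupp.linearCombination ℂ (fun x => e (g * x.1, x.2))
  have hinner : ∀ g (c d : G × Bool →₀ ℂ), ⟪Eg g c, Eg g d⟫_ℂ = ⟪E c, E d⟫_ℂ := by
    intro g c d
    simp only [Eg, E, Finsupp.linearCombination_apply, Finsupp.sum_inner, Finsupp.inner_sum]
    refine Finsupp.sum_congr fun i _ => Finsupp.sum_congr fun j _ => ?_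
    rw [inner_smul_left, inner_smul_right, inner_smul_left, inner_smul_right, he, he, hinv]
  have hnorm : ∀ g (c : G × Bool →₀ ℂ), ‖Eg g c‖ = ‖E c‖ := by
    intro g c
    rw [@norm_eq_sqrt_re_inner ℂ, hinner, ← @norm_eq_sqrt_re_inner ℂ]
  have hle : ∀ g (c : G × Bool →₀ ℂ), ‖Eg g c‖ ≤ 1 * ‖E c‖ := fun g c => by
    rw [one_mul, hnorm]
  let ρ : G → H →L[ℂ] H := fun g => (Eg g).extendOfNorm E
  have hρE : ∀ g c, ρ g (E c) = Eg g c := fun g c =>
    LinearMap.extendOfNorm_eq hd ⟨1, hle g⟩ c
  have hρe : ∀ g x, ρ g (e x) = e (g * x.1, x.2) := by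
    intro g x
    have := hρE g (Finsupp.single x 1)
    simpa [E, Eg] using this
  refine ⟨H, i1, i2, i3, ρ, e (1, false), e (1, true), ⟨fun g h => ?_, ?_, fun g x y => ?_⟩, ?_⟩
  · refine ContinuousLinearMap.ext fun x => ?_
    refine hd.induction_on (p := fun x => ρ (g * h) x = (ρ g * ρ h) x) x ?_ ?_
    · exact isClosed_eq (ρ (g * h)).continuous (ρ g * ρ h).continuous
    · intro c
      show ρ (g * h) (E c) = ρ g (ρ h (E c))
      rw [hρE, hρE]
      simp only [Eg, Finsupp.linearCombination_apply, Finsupp.sum, map_sum, map_smul]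
      refine Finset.sum_congr rfl fun i _ => ?_
      rw [hρe, mul_assoc]
  · refine ContinuousLinearMap.ext fun x => ?_
    refine hd.induction_on (p := fun x => ρ 1 x = (1 : H →L[ℂ] H) x) x ?_ ?_
    · exact isClosed_eq (ρ 1).continuous (1 : H →L[ℂ] H).continuous
    · intro c
      show ρ 1 (E c) = E c
      rw [hρE]
      simp only [Eg, E, one_mul]
  · refine hd.induction_on₂ (p := fun x y => ⟪ρ g x, ρ g y⟫_ℂ = ⟪x, y⟫_ℂ) ?_ ?_ x y
    · exact isClosed_eq
        (((ρ g).continuous.comp continuous_fst).inner ((ρ g).continuous.comp continuous_snd))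
        (continuous_fst.inner continuous_snd)
    · intro c d
      show ⟪ρ g (E c), ρ g (E d)⟫_ℂ = ⟪E c, E d⟫_ℂ
      rw [hρE, hρE, hinner]
  · intro g
    rw [hρe, he, ← hKf, mul_one]

end Pool.Agent.Run7.h917.LW
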