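import Mathlib

/-! Coefficient functions of unitary representations, in terms of invariant positive kernels. -/

set_option autoImplicit false
set_option linter.unusedSectionVars false

open scoped InnerProductSpace ComplexConjugate Topology Matrix ComplexOrder
open Filter

namespace Pool.Agent.Run7.h917.LW

universe u v w

/-- `f` is a coefficient function of a unitary representation, given by vectors of squared
length at most `M`; expressed by the Gram kernel of the translates of the two vectors. -/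
def IsCoef (M : ℝ) {G : Type u} [Group G] (f : G → ℂ) : Prop :=
  ∃ K : Matrix (G × Bool) (G × Bool) ℂ, K.PosSemidef ∧
    (∀ (g : G) (x y : G × Bool), K (g * x.1, x.2) (g * y.1, y.2) = K x y) ∧
    (∀ x y, ‖K x y‖ ≤ M) ∧ ∀ g, K (1, true) (g, false) = f g

theorem posSemidef_gram' {E : Type v} [NormedAddCommGroup E] [InnerProductSpace ℂ E] {X : Type w}
    (v : X → E) : (Matrix.of fun i j => ⟪v i, v j⟫_ℂ : Matrix X X ℂ).PosSemidef := by
  refine ⟨?_, fun x => ?_⟩
  · ext i j
    simp only [Matrix.conjTranspose_apply, Matrix.of_apply, RCLike.star_def]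
    exact inner_conj_symm _ _
  · have h : (x.sum fun i xi => x.sum fun j xj =>
        star xi * (Matrix.of fun i j => ⟪v i, v j⟫_ℂ : Matrix X X ℂ) i j * xj) =
        ⟪x.sum (fun i xi => xi • v i), x.sum (fun i xi => xi • v i)⟫_ℂ := by
      rw [Finsupp.sum_inner]
      refine Finsupp.sum_congr fun i _ => ?_
      rw [Finsupp.inner_sum]
      rw [Finsupp.sum, Finsupp.sum]
      first
        | rw [Finset.smul_sum]
        | skip
      refine Finset.sum_congr rfl fun j _ => ?_
      first
        | (rw [inner_smul_left, inner_smul_right]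
           show star (x i) * ⟪v i, v j⟫_ℂ * x j = (starRingEnd ℂ) (x i) * (x j * ⟪v i, v j⟫_ℂ)
           rw [starRingEnd_apply]
           ring)
        | (simp only [Matrix.of_apply, smul_eq_mul, RCLike.star_def]
           ring)
    rw [h, inner_self_eq_norm_sq_to_K]
    calc (0 : ℂ) ≤ ((‖x.sum fun i xi => xi • v i‖ ^ 2 : ℝ) : ℂ) :=
          Complex.zero_le_real.2 (sq_nonneg _)
      _ = _ := by push_cast; rfl

theorem IsCoef.of_gram {E : Type v} [NormedAddCommGroup E] [InnerProductSpace ℂ E]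
    {G : Type u} [Group G] (M : ℝ) (v : G × Bool → E)
    (hinv : ∀ (g : G) (x y : G × Bool),
      ⟪v (g * x.1, x.2), v (g * y.1, y.2)⟫_ℂ = ⟪v x, v y⟫_ℂ)
    (hM : ∀ x, ‖v x‖ ^ 2 ≤ M) : IsCoef M (fun g => ⟪v (1, true), v (g, false)⟫_ℂ) := by
  refine ⟨Matrix.of fun i j => ⟪v i, v j⟫_ℂ, posSemidef_gram' v, fun g x y => ?_, fun x y => ?_,
    fun g => rfl⟩
  · exact hinv g x y
  · show ‖⟪v x, v y⟫_ℂ‖ ≤ M
    have h1 := norm_inner_le_norm (𝕜 := ℂ) (v x) (v y)
    nlinarith [hM x, hM y, sq_nonneg (‖v x‖ - ‖v y‖)]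

/-- the square of the absolute value of a coefficient function -/
theorem IsCoef.normSq {M : ℝ} {G : Type u} [Group G] {f : G → ℂ} (hf : IsCoef M f) :
    IsCoef (M ^ 2) (fun g => f g * (starRingEnd ℂ) (f g)) := by
  obtain ⟨K, hK, hinv, hM, hKf⟩ := hf
  refine ⟨K ⊙ K.transpose, hK.hadamard hK.transpose, fun g x y => ?_, fun x y => ?_, fun g => ?_⟩
  · simp only [Matrix.hadamard_apply, Matrix.transpose_apply, hinv]
  · simp only [Matrix.hadamard_apply, Matrix.transpose_apply, norm_mul]
    rw [sq]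
    exact mul_le_mul (hM _ _) (hM _ _) (norm_nonneg _) ((norm_nonneg _).trans (hM x y))
  · simp only [Matrix.hadamard_apply, Matrix.transpose_apply]
    have h1 : K (g, false) (1, true) = (starRingEnd ℂ) (K (1, true) (g, false)) := by
      have := hK.isHermitian.apply (g, false) (1, true)
      rw [← this]; rfl
    rw [h1, hKf]

/-- pull-back along a homomorphism, with translations on both sides -/
theorem IsCoef.pull {M : ℝ} {G : Type u} [Group G] {f : G → ℂ} (hf : IsCoef M f)
    {G' : Type v} [Group G'] (φ : G' →* G) (a b : G) :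
    IsCoef M (fun g => f (a * φ g * b)) := by
  obtain ⟨K, hK, hinv, hM, hKf⟩ := hf
  let e : G' × Bool → G × Bool := fun x => (φ x.1 * (if x.2 then a⁻¹ else b), x.2)
  refine ⟨K.submatrix e e, hK.submatrix e, fun g x y => ?_, fun x y => hM _ _, fun g => ?_⟩
  · simp only [Matrix.submatrix_apply, e]
    rw [map_mul, map_mul, mul_assoc, mul_assoc]
    exact hinv (φ g) (φ x.1 * (if x.2 then a⁻¹ else b), x.2)
      (φ y.1 * (if y.2 then a⁻¹ else b), y.2)
  · show K (φ 1 * a⁻¹, true) (φ g * b, false) = f (a * φ g * b)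
    rw [← hKf]
    have := hinv a (φ 1 * a⁻¹, true) (φ g * b, false)
    rw [← this]
    simp [mul_assoc]

/-- limits along ultrafilters -/
theorem IsCoef.ultra {ι : Type w} (U : Ultrafilter ι) {M : ℝ} {G : ι → Type u}
    [∀ i, Group (G i)] {f : ∀ i, G i → ℂ} (hf : ∀ i, IsCoef M (f i)) (F : (∀ i, G i) → ℂ)
    (hF : ∀ g : ∀ i, G i, Tendsto (fun i => f i (g i)) U (𝓝 (F g))) : IsCoef M F := by
  choose K hK hinv hM hKf using hf
  have hex : ∀ x y : (∀ i, G i) × Bool, ∃ z : ℂ, ‖z‖ ≤ M ∧
      Tendsto (fun i => K i (x.1 i, x.2) (y.1 i, y.2)) U (𝓝 z) := by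
    intro x y
    have hc : IsCompact (Metric.closedBall (0 : ℂ) M) := isCompact_closedBall 0 M
    have hle : (↑(U.map (fun i => K i (x.1 i, x.2) (y.1 i, y.2))) : Filter ℂ) ≤
        𝓟 (Metric.closedBall (0 : ℂ) M) := by
      rw [le_principal_iff, Ultrafilter.mem_coe, Ultrafilter.mem_map]
      refine Filter.univ_mem' fun i => ?_
      simpa using hM i _ _
    obtain ⟨z, hz, hle2⟩ := isCompact_iff_ultrafilter_le_nhds.1 hc _ hle
    exact ⟨z, by simpa using hz, hle2⟩
  choose L hL1 hL2 using hex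
  refine ⟨Matrix.of L, ⟨?_, fun c => ?_⟩, fun g x y => ?_, fun x y => hL1 x y, fun g => ?_⟩
  · ext x y
    simp only [Matrix.conjTranspose_apply, Matrix.of_apply, RCLike.star_def]
    have h1 := (Complex.continuous_conj.tendsto _).comp (hL2 y x)
    refine tendsto_nhds_unique h1 ((hL2 x y).congr fun i => ?_)
    simp only [Function.comp_apply]
    have := (hK i).isHermitian.apply (x.1 i, x.2) (y.1 i, y.2)
    rw [← this]; rfl
  · have h1 : Tendsto (fun i => ∑ x ∈ c.support, ∑ y ∈ c.support,
        star (c x) * K i (x.1 i, x.2) (y.1 i, y.2) * c y) U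
        (𝓝 (∑ x ∈ c.support, ∑ y ∈ c.support, star (c x) * L x y * c y)) := by
      refine tendsto_finsetSum _ fun x _ => tendsto_finsetSum _ fun y _ => ?_
      exact ((hL2 x y).const_mul _).mul_const _
    have h2 : ∀ i, 0 ≤ ∑ x ∈ c.support, ∑ y ∈ c.support,
        star (c x) * K i (x.1 i, x.2) (y.1 i, y.2) * c y := by
      intro i
      have h3 := ((hK i).submatrix (fun x : (∀ i, G i) × Bool => (x.1 i, x.2))).2 c
      simpa [Finsupp.sum] using h3
    have h4 := ge_of_tendsto h1 (Eventually.of_forall h2)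
    simpa [Finsupp.sum] using h4
  · show L _ _ = L _ _
    refine tendsto_nhds_unique (hL2 _ _) ((hL2 x y).congr fun i => ?_)
    exact (hinv i (g i) (x.1 i, x.2) (y.1 i, y.2)).symm
  · show L _ _ = _
    refine tendsto_nhds_unique (hL2 _ _) ((hF g).congr fun i => ?_)
    exact (hKf i (g i)).symm

end Pool.Agent.Run7.h917.LW
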