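import Mathlib

/-! Weak operator limits along ultrafilters, and bounds for powers of positive contractions. -/

set_option autoImplicit false

open scoped InnerProductSpace ComplexConjugate Topology
open Filter

namespace Pool.Agent.Run7.h917.LW

universe u v

variable {H : Type u} [NormedAddCommGroup H] [InnerProductSpace ℂ H]

/-- a bounded family of complex numbers converges along an ultrafilter -/
theorem exists_tendsto {ι : Type v} (U : Ultrafilter ι) (a : ι → ℂ) (C : ℝ) (ha : ∀ i, ‖a i‖ ≤ C) :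
    ∃ z : ℂ, ‖z‖ ≤ C ∧ Tendsto a U (𝓝 z) := by
  have hK : IsCompact (Metric.closedBall (0 : ℂ) C) := isCompact_closedBall 0 C
  have hle : (↑(U.map a) : Filter ℂ) ≤ 𝓟 (Metric.closedBall (0 : ℂ) C) := by
    rw [le_principal_iff, Ultrafilter.mem_coe, Ultrafilter.mem_map]
    refine Filter.univ_mem' fun i => ?_
    simpa using ha i
  obtain ⟨z, hz, hle2⟩ := isCompact_iff_ultrafilter_le_nhds.1 hK (U.map a) hle
  exact ⟨z, by simpa using hz, hle2⟩

/-- a bounded family of operators has a weak limit along an ultrafilter -/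
theorem exists_limit [CompleteSpace H] {ι : Type v} (U : Ultrafilter ι) (A : ι → H →L[ℂ] H)
    (hA : ∀ i x, ‖A i x‖ ≤ ‖x‖) :
    ∃ T : H →L[ℂ] H, (∀ x, ‖T x‖ ≤ ‖x‖) ∧
      ∀ x y, Tendsto (fun i => ⟪y, A i x⟫_ℂ) U (𝓝 ⟪y, T x⟫_ℂ) := by
  have h1 : ∀ x y : H, ∃ z : ℂ, ‖z‖ ≤ ‖x‖ * ‖y‖ ∧ Tendsto (fun i => ⟪A i x, y⟫_ℂ) U (𝓝 z) := by
    intro x y
    refine exists_tendsto U _ _ fun i => ?_
    refine (norm_inner_le_norm _ _).trans ?_
    exact mul_le_mul_of_nonneg_right (hA i x) (norm_nonneg _)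
  choose B hB1 hB2 using h1
  have hadd : ∀ x y y', B x (y + y') = B x y + B x y' := by
    intro x y y'
    refine tendsto_nhds_unique (hB2 x (y + y')) ?_
    have := (hB2 x y).add (hB2 x y')
    refine this.congr fun i => ?_
    rw [inner_add_right]
  have hsmul : ∀ x (c : ℂ) y, B x (c • y) = c * B x y := by
    intro x c y
    refine tendsto_nhds_unique (hB2 x (c • y)) ?_
    have := (hB2 x y).const_mul c
    refine this.congr fun i => ?_
    rw [inner_smul_right]
  let L : H → (H →L[ℂ] ℂ) := fun x => LinearMap.mkContinuous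
    { toFun := B x
      map_add' := hadd x
      map_smul' := fun c y => by simpa using hsmul x c y } ‖x‖ (fun y => hB1 x y)
  have hL : ∀ x y, L x y = B x y := fun x y => rfl
  let t : H → H := fun x => (InnerProductSpace.toDual ℂ H).symm (L x)
  have ht : ∀ x y, ⟪t x, y⟫_ℂ = B x y := by
    intro x y
    show ⟪(InnerProductSpace.toDual ℂ H).symm (L x), y⟫_ℂ = B x y
    rw [InnerProductSpace.toDual_symm_apply, hL]
  have htadd : ∀ x x', t (x + x') = t x + t x' := by
    intro x x'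
    refine ext_inner_right ℂ fun y => ?_
    rw [inner_add_left, ht, ht, ht]
    refine tendsto_nhds_unique (hB2 (x + x') y) ?_
    have := (hB2 x y).add (hB2 x' y)
    refine this.congr fun i => ?_
    rw [map_add, inner_add_left]
  have htsmul : ∀ (c : ℂ) x, t (c • x) = c • t x := by
    intro c x
    refine ext_inner_right ℂ fun y => ?_
    rw [inner_smul_left, ht, ht]
    refine tendsto_nhds_unique (hB2 (c • x) y) ?_
    have := (hB2 x y).const_mul (conj c)
    refine this.congr fun i => ?_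
    rw [map_smul, inner_smul_left]
  have htn : ∀ x, ‖t x‖ ≤ ‖x‖ := by
    intro x
    by_cases h0 : ‖t x‖ = 0
    · rw [h0]; exact norm_nonneg _
    have hpos : 0 < ‖t x‖ := lt_of_le_of_ne (norm_nonneg _) (Ne.symm h0)
    have h2 := hB1 x (t x)
    rw [← ht, inner_self_eq_norm_sq_to_K] at h2
    rw [norm_pow] at h2
    have h3 : ‖((‖t x‖ : ℝ) : ℂ)‖ = ‖t x‖ := by
      rw [Complex.norm_real, norm_norm]
    have h4 : ‖t x‖ ^ 2 ≤ ‖x‖ * ‖t x‖ := by
      calc ‖t x‖ ^ 2 = ‖((‖t x‖ : ℝ) : ℂ)‖ ^ 2 := by rw [h3]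
        _ ≤ _ := h2
    nlinarith
  let T : H →L[ℂ] H := LinearMap.mkContinuous
    { toFun := t, map_add' := htadd, map_smul' := fun c x => by simpa using htsmul c x } 1
    (fun x => by simpa using htn x)
  have hT : ∀ x, T x = t x := fun x => rfl
  refine ⟨T, fun x => by rw [hT]; exact htn x, fun x y => ?_⟩
  have h5 := (Complex.continuous_conj.tendsto _).comp (hB2 x y)
  rw [← ht] at h5
  have h6 : (starRingEnd ℂ) ⟪t x, y⟫_ℂ = ⟪y, T x⟫_ℂ := by rw [inner_conj_symm, hT]
  rw [h6] at h5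
  refine h5.congr fun i => ?_
  simp only [Function.comp_apply]
  rw [inner_conj_symm]

/-- `x ^ k (1 - x) ≤ 1 / (k + 1)` on the unit interval -/
theorem pow_mul_le (x : ℝ) (h0 : 0 ≤ x) (h1 : x ≤ 1) (k : ℕ) :
    x ^ k * (1 - x) ≤ 1 / (k + 1) := by
  rw [le_div_iff₀ (by positivity)]
  have h2 : ((k : ℝ) + 1) * x ^ k ≤ ∑ i ∈ Finset.range (k + 1), x ^ i := by
    have : ∑ _i ∈ Finset.range (k + 1), x ^ k ≤ ∑ i ∈ Finset.range (k + 1), x ^ i := by
      refine Finset.sum_le_sum fun i hi => ?_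
      exact pow_le_pow_of_le_one h0 h1 (by have := Finset.mem_range.1 hi; omega)
    simpa using this
  have h3 : (∑ i ∈ Finset.range (k + 1), x ^ i) * (1 - x) = 1 - x ^ (k + 1) := by
    have := geom_sum_mul x (k + 1)
    linarith
  have h4 : x ^ k * (1 - x) * (k + 1) ≤ 1 - x ^ (k + 1) := by
    rw [← h3]
    have := mul_le_mul_of_nonneg_right h2 (sub_nonneg.2 h1)
    linarith
  have h5 : 0 ≤ x ^ (k + 1) := by positivity
  linarith

end Pool.Agent.Run7.h917.LW
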