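import Pool.Agent.Run7.h917.LW.Final
import Pool.Agent.Run7.h266.AZ.Mix

/-! Matrices. -/

set_option autoImplicit false
set_option linter.unusedSectionVars false

open scoped InnerProductSpace Pointwise

namespace Pool.Agent.Run7.h917.LW

universe u v w

theorem rk_eq_az {G : Type u} [Group G] (α : G →₀ ℂ) : Run7.h266.AZ.rk α = rk α := by
  rw [Run7.h266.AZ.rk_eq]
  have h := (W649.ZL.kerDim_eq_vd α).symm
  rw [h]
  show 1 - (1 - _) = _
  rw [sub_sub_cancel]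
  rfl

theorem rk_iv {G : Type u} [Group G] (α : G →₀ ℂ) :
    Run7.h266.AZ.rk (Run7.h266.AZ.iv α) = rk (Run7.h266.AZ.cj α) := by
  rw [Run7.h266.AZ.rk_iv_cj, rk_eq_az]

theorem cj_norm {G : Type u} [Group G] (α : G →₀ ℂ) (g : G) :
    ‖Run7.h266.AZ.cj α g‖ = ‖α g‖ := by
  rw [Run7.h266.AZ.cj_apply, RCLike.norm_conj]

/-- the rank of the entry and its inverted element -/
theorem iv_general (C : ℝ) (K' B : ℕ) :
    ∃ N : ℕ, ∀ (G : Type u) [Group G] (α : G →₀ ℂ) (m : ℝ), 0 ≤ m →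
      (∀ g ∈ α.support, m ≤ ‖α g‖) → N ≤ α.support.card →
      C * m ^ 2 ≤ Run7.h266.AZ.rk (Run7.h266.AZ.iv α) * ∑ g ∈ α.support, ‖α g‖ ^ 2 ∨
      ∃ X : Finset G, X.card = B ∧ ∃ y : G, ∀ w ∈ ((X : Set G)⁻¹ * (X : Set G)) ^ K',
        IsOfFinOrder w ∧ ∀ x ∈ X, x * w * y ∈ α.support := by
  obtain ⟨N, hN⟩ := rank_general.{u} C K' B
  refine ⟨N, fun G _ α m hm hα hcard => ?_⟩
  have h := hN G (Run7.h266.AZ.cj α) m hm (fun g hg => by
    rw [cj_norm]; rw [Run7.h266.AZ.cj_support] at hg; exact hα g hg)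
    (by rw [Run7.h266.AZ.cj_support]; exact hcard)
  rw [Run7.h266.AZ.cj_support] at h
  rw [rk_iv]
  simpa only [cj_norm] using h

/-- **Matrices over arbitrary groups.** -/
theorem mat_general (C : ℝ) (K' B : ℕ) :
    ∃ N : ℕ, ∀ (G : Type u) [Group G] (K L : Type) [Fintype K] [Fintype L] [DecidableEq K] [DecidableEq L]
      (A : K → L → (G →₀ ℂ)) (p : ℕ) (i : Fin p → K) (j : Fin p → L) (μ : Fin p → ℝ),
      (∀ a b, a < b → A (i a) (j b) = 0) → (∀ a, 0 ≤ μ a) →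
      (∀ a, ∀ g ∈ (A (i a) (j a)).support, μ a ≤ ‖A (i a) (j a) g‖) →
      (∀ a, N ≤ (A (i a) (j a)).support.card) →
      (∑ a, C * μ a ^ 2 / ∑ g ∈ (A (i a) (j a)).support, ‖A (i a) (j a) g‖ ^ 2
        ≤ Run7.h266.AZ.rkM (K := K) (L := L) A) ∨
      ∃ a, ∃ X : Finset G, X.card = B ∧ ∃ y : G, ∀ w ∈ ((X : Set G)⁻¹ * (X : Set G)) ^ K',
        IsOfFinOrder w ∧ ∀ x ∈ X, x * w * y ∈ (A (i a) (j a)).support := by
  classical
  obtain ⟨N, hN⟩ := iv_general.{u} C K' B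
  refine ⟨max N 1, fun G _ K L _ _ _ _ A p i j μ htri hμ hA hcard => ?_⟩
  by_cases hex : ∃ a, ∃ X : Finset G, X.card = B ∧ ∃ y : G,
      ∀ w ∈ ((X : Set G)⁻¹ * (X : Set G)) ^ K',
        IsOfFinOrder w ∧ ∀ x ∈ X, x * w * y ∈ (A (i a) (j a)).support
  · exact Or.inr hex
  left
  refine le_trans (Finset.sum_le_sum fun a _ => ?_)
    (Run7.h266.AZ.triangular (K := K) (L := L) A p i j htri)
  rcases hN G (A (i a) (j a)) (μ a) (hμ a) (hA a) ((le_max_left _ _).trans (hcard a)) with h | h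
  · have hpos : 0 < ∑ g ∈ (A (i a) (j a)).support, ‖A (i a) (j a) g‖ ^ 2 := by
      have hne : (A (i a) (j a)).support.Nonempty := by
        rw [← Finset.card_pos]
        have := (le_max_right N 1).trans (hcard a)
        omega
      refine Finset.sum_pos (fun g hg => ?_) hne
      have := norm_pos_iff.2 (Finsupp.mem_support_iff.1 hg)
      positivity
    rw [div_le_iff₀ hpos]
    exact h
  · exact absurd ⟨a, h⟩ hex

/-- **Matrices over groups in which any more than `B` elements contain two with a quotient of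
infinite order.** -/
theorem mat_few (C : ℝ) (B : ℕ) :
    ∃ N : ℕ, ∀ (G : Type u) [Group G], Few B G → ∀ (K L : Type) [Fintype K] [Fintype L] [DecidableEq K] [DecidableEq L]
      (A : K → L → (G →₀ ℂ)) (p : ℕ) (i : Fin p → K) (j : Fin p → L) (μ : Fin p → ℝ),
      (∀ a b, a < b → A (i a) (j b) = 0) → (∀ a, 0 ≤ μ a) →
      (∀ a, ∀ g ∈ (A (i a) (j a)).support, μ a ≤ ‖A (i a) (j a) g‖) →
      (∀ a, N ≤ (A (i a) (j a)).support.card) →
      ∑ a, C * μ a ^ 2 / ∑ g ∈ (A (i a) (j a)).support, ‖A (i a) (j a) g‖ ^ 2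
        ≤ Run7.h266.AZ.rkM (K := K) (L := L) A := by
  obtain ⟨N, hN⟩ := mat_general.{u} C 1 (B + 1)
  refine ⟨N, fun G _ hG K L _ _ _ _ A p i j μ htri hμ hA hcard => ?_⟩
  rcases hN G K L A p i j μ htri hμ hA hcard with h | ⟨a, X, hXc, y, hX⟩
  · exact h
  · exfalso
    obtain ⟨a, ha, b, hb, hab⟩ := hG X (by omega)
    refine hab (hX _ ?_).1
    rw [pow_one]
    exact ⟨a⁻¹, by simpa using ha, b, by simpa using hb, rfl⟩

/-- entries with coefficients of absolute value at least one -/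
theorem mat_int (C : ℝ) (B : ℕ) :
    ∃ N : ℕ, ∀ (G : Type u) [Group G], Few B G → ∀ (K L : Type) [Fintype K] [Fintype L] [DecidableEq K] [DecidableEq L]
      (A : K → L → (G →₀ ℂ)) (p : ℕ) (i : Fin p → K) (j : Fin p → L),
      (∀ a b, a < b → A (i a) (j b) = 0) →
      (∀ a, ∀ g ∈ (A (i a) (j a)).support, 1 ≤ ‖A (i a) (j a) g‖) →
      (∀ a, (N : ℝ) ≤ ∑ g ∈ (A (i a) (j a)).support, ‖A (i a) (j a) g‖ ^ 2) →
      ∑ a, C / ∑ g ∈ (A (i a) (j a)).support, ‖A (i a) (j a) g‖ ^ 2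
        ≤ Run7.h266.AZ.rkM (K := K) (L := L) A := by
  classical
  obtain ⟨N, hN⟩ := rank_int.{u} C B
  refine ⟨N + 1, fun G _ hG K L _ _ _ _ A p i j htri hA hcard => ?_⟩
  refine le_trans (Finset.sum_le_sum fun a _ => ?_)
    (Run7.h266.AZ.triangular (K := K) (L := L) A p i j htri)
  have h := hN G hG (Run7.h266.AZ.cj (A (i a) (j a))) (fun g hg => by
    rw [cj_norm]; rw [Run7.h266.AZ.cj_support] at hg; exact hA a g hg)
    (by
      rw [Run7.h266.AZ.cj_support]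
      simp only [cj_norm]
      have := hcard a
      push_cast at this
      linarith)
  rw [Run7.h266.AZ.cj_support] at h
  simp only [cj_norm] at h
  rw [rk_iv]
  have hpos : 0 < ∑ g ∈ (A (i a) (j a)).support, ‖A (i a) (j a) g‖ ^ 2 := by
    have := hcard a
    push_cast at this
    have h0 : (0 : ℝ) ≤ N := Nat.cast_nonneg _
    linarith
  rw [div_le_iff₀ hpos]
  exact h

end Pool.Agent.Run7.h917.LW
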