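import Pool.Agent.Run7.h917.LW.GCase

/-! From the rank of an element of the group algebra to coefficient functions. -/

set_option autoImplicit false
set_option linter.unusedSectionVars false

open scoped InnerProductSpace ComplexConjugate Topology ENNReal
open Filter

namespace Pool.Agent.Run7.h917.LW

universe u v w

section
variable {G : Type u} [Group G]

/-- square-summable functions -/
abbrev L2 (G : Type u) : Type u := lp (fun _ : G => ℂ) 2

/-- All square-summable `f` with `α * f = 0`. -/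
def kernel (α : G →₀ ℂ) : Set (L2 G) :=
  {f | ∀ g : G, ∑ k ∈ α.support, α k * f (k⁻¹ * g) = 0}

theorem memlp_iff (f : G → ℂ) : Memℓp f 2 ↔ Summable fun g => ‖f g‖ ^ 2 := by
  rw [memℓp_gen_iff (by norm_num)]
  simp

theorem memlp_trans (g : G) (f : L2 G) : Memℓp (fun h => f (h * g)) 2 := by
  rw [memlp_iff]
  have h1 := (memlp_iff _).1 f.2
  exact (Equiv.mulRight g).summable_iff.2 h1

/-- right translation -/
def trans (g : G) (f : L2 G) : L2 G := ⟨fun h => f (h * g), memlp_trans g f⟩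

theorem trans_apply (g : G) (f : L2 G) (h : G) : trans g f h = f (h * g) := rfl

theorem trans_mul (g h : G) (f : L2 G) : trans (g * h) f = trans g (trans h f) := by
  ext x
  rw [trans_apply, trans_apply, trans_apply, mul_assoc]

theorem trans_inner (g : G) (a b : L2 G) : ⟪trans g a, trans g b⟫_ℂ = ⟪a, b⟫_ℂ := by
  rw [lp.inner_eq_tsum, lp.inner_eq_tsum]
  exact (Equiv.mulRight g).tsum_eq (fun h => ⟪a h, b h⟫_ℂ)

theorem trans_norm (g : G) (a : L2 G) : ‖trans g a‖ = ‖a‖ := by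
  rw [@norm_eq_sqrt_re_inner ℂ, trans_inner, ← @norm_eq_sqrt_re_inner ℂ]

theorem memlp_zeta (α : G →₀ ℂ) : Memℓp (fun h => (starRingEnd ℂ) (α h⁻¹)) 2 := by
  rw [memlp_iff]
  refine summable_of_ne_finset_zero (s := α.support.map (Equiv.inv G).toEmbedding) fun h hh => ?_
  have h1 : α h⁻¹ = 0 := by
    by_contra h2
    apply hh
    rw [Finset.mem_map]
    exact ⟨h⁻¹, Finsupp.mem_support_iff.2 h2, by simp⟩
  rw [h1]; simp

/-- the vector of the coefficients -/
def zeta (α : G →₀ ℂ) : L2 G := ⟨fun h => (starRingEnd ℂ) (α h⁻¹), memlp_zeta α⟩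

theorem zeta_inner (α : G →₀ ℂ) (f : L2 G) :
    ⟪zeta α, f⟫_ℂ = ∑ k ∈ α.support, α k * f k⁻¹ := by
  rw [lp.inner_eq_tsum]
  rw [← (Equiv.inv G).tsum_eq]
  rw [tsum_eq_sum (s := α.support)]
  · refine Finset.sum_congr rfl fun k _ => ?_
    simp [zeta, RCLike.inner_apply, mul_comm]
  · intro k hk
    rw [Finsupp.notMem_support_iff] at hk
    simp [zeta, RCLike.inner_apply, hk]

theorem zeta_norm (α : G →₀ ℂ) : ‖zeta α‖ ^ 2 = ∑ k ∈ α.support, ‖α k‖ ^ 2 := by
  have h1 : ((‖zeta α‖ ^ 2 : ℝ) : ℂ) = ((∑ k ∈ α.support, ‖α k‖ ^ 2 : ℝ) : ℂ) := by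
    push_cast
    have h2 := inner_self_eq_norm_sq_to_K (𝕜 := ℂ) (zeta α)
    rw [zeta_inner] at h2
    have h3 : ((‖zeta α‖ : ℂ)) ^ 2 = ∑ k ∈ α.support, α k * (zeta α) k⁻¹ := h2.symm
    rw [h3]
    refine Finset.sum_congr rfl fun k _ => ?_
    simp only [zeta, inv_inv]
    rw [Complex.mul_conj, Complex.normSq_eq_norm_sq]
    push_cast
    rfl
  exact_mod_cast h1

open Classical in
theorem zeta_trans (α : G →₀ ℂ) (p : L2 G) (hp : p ∈ kernel α) (g : G) :
    ⟪zeta α, trans g (lp.single 2 (1 : G) (1 : ℂ) - p)⟫_ℂ = α g := by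
  rw [zeta_inner]
  have h1 : ∀ k ∈ α.support, α k * (trans g (lp.single 2 (1 : G) (1 : ℂ) - p)) k⁻¹ =
      α k * (if k = g then 1 else 0) - α k * p (k⁻¹ * g) := by
    intro k _
    rw [trans_apply, lp.coeFn_sub, Pi.sub_apply, mul_sub, lp.single_apply]
    congr 2
    by_cases hk : k = g
    · subst hk; simp
    · rw [if_neg hk, Pi.single_apply, if_neg]
      intro h2
      exact hk (inv_mul_eq_one.1 h2)
  rw [Finset.sum_congr rfl h1, Finset.sum_sub_distrib, hp g, sub_zero]
  simp only [mul_ite, mul_one, mul_zero]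
  rw [Finset.sum_ite_eq' ]
  split_ifs with h2
  · rfl
  · exact (Finsupp.notMem_support_iff.1 h2).symm

theorem zero_mem_kernel (α : G →₀ ℂ) : (0 : L2 G) ∈ kernel α := by
  intro g
  simp

open Classical in
/-- An element of the group algebra of small rank is a coefficient function. -/
theorem isCoef_of_rank (α : G →₀ ℂ) (m C : ℝ) (hm : 0 < m)
    (h : Metric.infDist (lp.single 2 (1 : G) (1 : ℂ)) (kernel α) ^ 2 *
      ∑ k ∈ α.support, ‖α k‖ ^ 2 < C * m ^ 2) (hα : α ≠ 0) :
    IsCoef (Real.sqrt C) (fun g => α g / m) := by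
  set A := ∑ k ∈ α.support, ‖α k‖ ^ 2 with hA
  have hApos : 0 < A := by
    obtain ⟨k, hk⟩ := Finsupp.support_nonempty_iff.2 hα
    refine Finset.sum_pos' (fun _ _ => sq_nonneg _) ⟨k, hk, ?_⟩
    have := norm_pos_iff.2 (Finsupp.mem_support_iff.1 hk)
    positivity
  have hCm : 0 < C * m ^ 2 := lt_of_le_of_lt (by positivity) h
  have hC : 0 < C := by
    by_contra hneg
    push Not at hneg
    nlinarith [sq_nonneg m]
  -- choose a vector of the kernel
  have h1 : Metric.infDist (lp.single 2 (1 : G) (1 : ℂ)) (kernel α) < Real.sqrt (C * m ^ 2 / A) := by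
    apply Real.lt_sqrt_of_sq_lt
    rw [lt_div_iff₀ hApos]
    exact h
  obtain ⟨p, hp, hpd⟩ := (Metric.infDist_lt_iff ⟨0, zero_mem_kernel α⟩).1 h1
  set u : L2 G := lp.single 2 (1 : G) (1 : ℂ) - p with hu
  have hun : ‖u‖ ^ 2 * A ≤ C * m ^ 2 := by
    rw [dist_eq_norm] at hpd
    have h2 : ‖u‖ ^ 2 ≤ C * m ^ 2 / A := by
      have := pow_le_pow_left₀ (norm_nonneg _) hpd.le 2
      rwa [Real.sq_sqrt (by positivity)] at this
    rwa [le_div_iff₀ hApos] at h2
  -- balance the two vectors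
  set t : ℝ := Real.sqrt (Real.sqrt C / A) with ht
  have htpos : 0 < t := by positivity
  have ht2 : t ^ 2 = Real.sqrt C / A := Real.sq_sqrt (by positivity)
  have hsq : Real.sqrt C ^ 2 = C := Real.sq_sqrt hC.le
  have hsqpos : 0 < Real.sqrt C := Real.sqrt_pos.2 hC
  let w : Bool → L2 G := fun b => if b then ((t : ℝ) : ℂ) • zeta α else
    (((t * m)⁻¹ : ℝ) : ℂ) • u
  have hwt : w true = ((t : ℝ) : ℂ) • zeta α := rfl
  have hwf : w false = (((t * m)⁻¹ : ℝ) : ℂ) • u := rfl
  have hwn : ∀ b, ‖w b‖ ^ 2 ≤ Real.sqrt C := by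
    intro b
    cases b
    · rw [hwf, norm_smul, Complex.norm_real, Real.norm_of_nonneg (by positivity), mul_pow]
      rw [inv_pow, mul_pow, ht2]
      rw [inv_mul_le_iff₀ (by positivity)]
      have : Real.sqrt C / A * m ^ 2 * Real.sqrt C = C * m ^ 2 / A := by
        rw [← hsq]
        have h9 : Real.sqrt (Real.sqrt C ^ 2) = Real.sqrt C := by rw [hsq]
        rw [h9]
        field_simp
      rw [this, le_div_iff₀ hApos]
      exact hun
    · rw [hwt, norm_smul, Complex.norm_real, Real.norm_of_nonneg htpos.le, mul_pow, ht2,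
        zeta_norm, div_mul_cancel₀ _ hApos.ne']
  have h2 := IsCoef.of_gram (G := G) (Real.sqrt C) (fun x : G × Bool => trans x.1 (w x.2))
    (fun g x y => by
      rw [trans_mul, trans_mul, trans_inner])
    (fun x => by
      rw [trans_norm]
      exact hwn x.2)
  have h3 : (fun g : G => ⟪trans (1 : G) (w true), trans g (w false)⟫_ℂ) = fun g => α g / m := by
    funext g
    have e1 : trans (1 : G) (w true) = w true := by
      ext x; rw [trans_apply, mul_one]
    have e2 : trans g (w false) = (((t * m)⁻¹ : ℝ) : ℂ) • trans g u := by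
      rw [hwf]; ext x; rfl
    rw [e1, e2, hwt, inner_smul_left, inner_smul_right, hu, zeta_trans α p hp g,
      Complex.conj_ofReal]
    push_cast
    have : (t : ℂ) ≠ 0 := by exact_mod_cast htpos.ne'
    have : (m : ℂ) ≠ 0 := by exact_mod_cast hm.ne'
    field_simp
  rw [← h3]
  exact h2

open Classical in
/-- the trivial lower bound for the rank -/
theorem trivial_bound (α : G →₀ ℂ) (g : G) :
    ‖α g‖ ^ 2 ≤ Metric.infDist (lp.single 2 (1 : G) (1 : ℂ)) (kernel α) ^ 2 *
      ∑ k ∈ α.support, ‖α k‖ ^ 2 := by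
  have h1 : ∀ p ∈ kernel α, ‖α g‖ ≤ dist (lp.single 2 (1 : G) (1 : ℂ)) p * ‖zeta α‖ := by
    intro p hp
    rw [← zeta_trans α p hp g]
    refine (norm_inner_le_norm _ _).trans ?_
    rw [trans_norm, dist_eq_norm, mul_comm]
  have h2 : ‖α g‖ ≤ Metric.infDist (lp.single 2 (1 : G) (1 : ℂ)) (kernel α) * ‖zeta α‖ := by
    rcases eq_or_lt_of_le (norm_nonneg (zeta α)) with h3 | h3
    · have := h1 0 (zero_mem_kernel α)
      rw [← h3, mul_zero] at this ⊢
      exact this
    · rw [← div_le_iff₀ h3]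
      rw [Metric.le_infDist ⟨0, zero_mem_kernel α⟩]
      intro p hp
      rw [div_le_iff₀ h3]
      exact h1 p hp
  rw [← zeta_norm, ← mul_pow]
  exact pow_le_pow_left₀ (norm_nonneg _) h2 2

end

end Pool.Agent.Run7.h917.LW
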