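import Pool.Agent.Run7.h917.LW.GNS

/-! Finite supports on the integers. -/

set_option autoImplicit false
set_option linter.unusedSectionVars false

open scoped InnerProductSpace ComplexConjugate Topology Matrix ComplexOrder
open Filter

namespace Pool.Agent.Run7.h917.LW

universe u v w

theorem IsCoef.norm_le {M : ℝ} {G : Type u} [Group G] {f : G → ℂ} (hf : IsCoef M f) (g : G) :
    ‖f g‖ ≤ M := by
  obtain ⟨K, hK, hinv, hM, hKf⟩ := hf
  rw [← hKf]; exact hM _ _

/-- The limit of a family of coefficient functions along an ultrafilter. -/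
theorem exists_limit_coef {ι : Type w} (U : Ultrafilter ι) {M : ℝ} {G : ι → Type u}
    [∀ i, Group (G i)] {f : ∀ i, G i → ℂ} (hf : ∀ i, IsCoef M (f i))
    (hgap : ∀ i g, f i g ∈ Gap) : ∃ F : (∀ i, G i) → ℂ, IsCoef M F ∧ (∀ g, F g ∈ Gap) ∧
      ∀ g : ∀ i, G i, F g ≠ 0 ↔ ∀ᶠ i in (U : Filter ι), f i (g i) ≠ 0 := by
  have hex : ∀ g : (∀ i, G i), ∃ z : ℂ, ‖z‖ ≤ M ∧ Tendsto (fun i => f i (g i)) U (𝓝 z) :=
    fun g => exists_tendsto U _ M fun i => (hf i).norm_le _
  choose F hF1 hF2 using hex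
  have hFgap : ∀ g, F g ∈ Gap := fun g =>
    isClosed_gap.mem_of_tendsto (hF2 g) (Eventually.of_forall fun i => hgap i _)
  refine ⟨F, IsCoef.ultra U hf F hF2, hFgap, fun g => ⟨fun h => ?_, fun h => ?_⟩⟩
  · filter_upwards [(Metric.tendsto_nhds.1 (hF2 g)) 1 one_pos] with i hi
    rw [dist_comm, dist_eq_norm] at hi
    exact gap_ne (hFgap g) h hi
  · obtain ⟨i, hi1, hi2⟩ := (h.and ((Metric.tendsto_nhds.1 (hF2 g)) 1 one_pos)).exists
    rw [dist_eq_norm] at hi2
    exact gap_ne (hgap i _) hi1 hi2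

/-- the `n`-th largest element of a finite set of integers -/
noncomputable def top (S : Finset ℤ) (n : ℕ) : ℤ :=
  if h : n < S.card then S.orderEmbOfFin rfl ⟨S.card - 1 - n, by omega⟩ else 0

theorem top_mem (S : Finset ℤ) (n : ℕ) (h : n < S.card) : top S n ∈ S := by
  rw [top, dif_pos h]
  exact Finset.orderEmbOfFin_mem _ _ _

theorem top_lt (S : Finset ℤ) (n m : ℕ) (hnm : n < m) (h : m < S.card) : top S m < top S n := by
  rw [top, dif_pos h, top, dif_pos (hnm.trans h)]
  refine (S.orderEmbOfFin rfl).strictMono ?_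
  rw [Fin.mk_lt_mk]
  omega

theorem card_top (S : Finset ℤ) (n : ℕ) (h : n < S.card) :
    (S.filter (fun x => top S n ≤ x)).card ≤ n + 1 := by
  have h1 : S.filter (fun x => top S n ≤ x) ⊆
      (Finset.Ici (⟨S.card - 1 - n, by omega⟩ : Fin S.card)).image (S.orderEmbOfFin rfl) := by
    intro x hx
    rw [Finset.mem_filter] at hx
    have h2 : x ∈ Set.range (S.orderEmbOfFin rfl) := by
      rw [Finset.range_orderEmbOfFin]; exact hx.1
    obtain ⟨i, rfl⟩ := h2
    refine Finset.mem_image_of_mem _ ?_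
    rw [Finset.mem_Ici]
    have h3 := hx.2
    rw [top, dif_pos h] at h3
    exact (S.orderEmbOfFin rfl).le_iff_le.1 h3
  refine (Finset.card_le_card h1).trans (Finset.card_image_le.trans ?_)
  rw [Fin.card_Ici]
  simp only
  omega

theorem eventually_ge (n : ℕ) : ∀ᶠ j in (hyperfilter ℕ : Filter ℕ), n ≤ j :=
  Nat.hyperfilter_le_atTop (eventually_ge_atTop n)

/-- Coefficient functions on the integers, with finite support and with all values zero or of
absolute value at least one, have supports of bounded size. -/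
theorem zcase (M : ℝ) :
    ∃ L : ℕ, ∀ f : Multiplicative ℤ → ℂ, IsCoef M f → (∀ k, f k ∈ Gap) →
      ∀ S : Finset ℤ, (∀ k : ℤ, k ∈ S ↔ f (Multiplicative.ofAdd k) ≠ 0) → S.card ≤ L := by
  by_contra hcon
  push Not at hcon
  choose f hf hfD S hS hcard using hcon
  set U : Ultrafilter ℕ := hyperfilter ℕ with hU
  obtain ⟨F, hFc, hFD, hF⟩ := exists_limit_coef U hf hfD
  obtain ⟨H, i1, i2, i3, ρ, ξ, η, hρ, hρF⟩ := exists_rep hFc
  let s : ℕ → ℕ → Multiplicative ℤ := fun n j => Multiplicative.ofAdd (top (S j) n)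
  have hlt : ∀ n, ∀ᶠ j in (U : Filter ℕ), n < (S j).card := fun n =>
    (eventually_ge n).mono fun j hj => lt_of_le_of_lt hj (hcard j)
  have hne : ∀ n, F (s n) ≠ 0 := by
    intro n
    rw [hF]
    filter_upwards [hlt n] with j hj
    exact (hS j _).1 (top_mem (S j) n hj)
  let E : Set (ℕ → Multiplicative ℤ) :=
    {h | ∀ᶠ j in (U : Filter ℕ), 0 ≤ Multiplicative.toAdd (h j)}
  have hE1 : (1 : ℕ → Multiplicative ℤ) ∈ E := Eventually.of_forall fun j => le_rfl
  have hEm : ∀ a ∈ E, ∀ b ∈ E, a * b ∈ E := by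
    intro a ha b hb
    filter_upwards [ha, hb] with j h1 h2
    rw [Pi.mul_apply, toAdd_mul]
    exact add_nonneg h1 h2
  have hs : ∀ᶠ p in (U : Filter ℕ), ∀ᶠ q in (U : Filter ℕ), (s q)⁻¹ * s p ∈ E := by
    refine Eventually.of_forall fun p => ?_
    filter_upwards [eventually_ge (p + 1)] with q hq
    filter_upwards [hlt q] with j hj
    rw [Pi.mul_apply, Pi.inv_apply, toAdd_mul, toAdd_inv]
    have := top_lt (S j) p q (by omega) hj
    simp only [s, toAdd_ofAdd]
    omega
  obtain ⟨I, hI, hI2⟩ := hl hρ ξ η (fun g => by rw [hρF]; exact hFD g) U s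
    (Eventually.of_forall fun n => by rw [hρF]; exact hne n) E hE1 hEm hs
  obtain ⟨n, hn⟩ := Ultrafilter.nonempty_of_mem hI
  obtain ⟨m, hm1, hm2⟩ : ∃ m, m ∈ I ∧ n + 1 ≤ m :=
    ((show ∀ᶠ m in (U : Filter ℕ), m ∈ I from hI).and (eventually_ge (n + 1))).exists
  obtain ⟨h', hh', hk⟩ := hI2 n hn m hm1 (n + 1)
  have h3 : ∀ i ∈ Finset.range (n + 2), ∀ᶠ j in (U : Filter ℕ),
      f j ((s n * ((s n)⁻¹ * s m) ^ (-(i : ℤ)) * h') j) ≠ 0 := by
    intro i hi
    have h4 := hk (-(i : ℤ)) (by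
      have := Finset.mem_range.1 hi
      rw [abs_neg, Nat.abs_cast]
      exact_mod_cast (by omega : i ≤ n + 1))
    rw [hρF, hF] at h4
    exact h4
  obtain ⟨j, ⟨hj1, hj2⟩, hj3⟩ :=
    ((((Filter.eventually_all_finset (Finset.range (n + 2))).2 h3).and hh').and (hlt m)).exists
  have hnm := top_lt (S j) n m (by omega) hj3
  have hcn : n < (S j).card := by omega
  let x : ℕ → ℤ := fun i => top (S j) n + i * (top (S j) n - top (S j) m) +
    Multiplicative.toAdd (h' j)
  have hx : ∀ i ∈ Finset.range (n + 2), x i ∈ S j := by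
    intro i hi
    rw [hS]
    have h4 := hj1 i hi
    convert h4 using 2
    simp only [s, x, Pi.mul_apply, Pi.pow_apply, Pi.inv_apply]
    apply Multiplicative.toAdd.injective
    simp only [toAdd_mul, toAdd_zpow, toAdd_inv, toAdd_ofAdd, smul_eq_mul]
    ring
  have hinj : Function.Injective x := by
    intro i i' h
    simp only [x] at h
    have h5 : ((i : ℤ) - i') * (top (S j) n - top (S j) m) = 0 := by linarith
    rcases mul_eq_zero.1 h5 with h6 | h6
    · omega
    · omega
  have hsub : (Finset.range (n + 2)).image x ⊆ (S j).filter (fun y => top (S j) n ≤ y) := by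
    intro y hy
    obtain ⟨i, hi, rfl⟩ := Finset.mem_image.1 hy
    rw [Finset.mem_filter]
    refine ⟨hx i hi, ?_⟩
    simp only [x]
    have h5 : (0 : ℤ) ≤ i * (top (S j) n - top (S j) m) :=
      mul_nonneg (Nat.cast_nonneg i) (by omega)
    linarith
  have h6 := Finset.card_le_card hsub
  rw [Finset.card_image_of_injective _ hinj, Finset.card_range] at h6
  have h7 := card_top (S j) n hcn
  omega

end Pool.Agent.Run7.h917.LW
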